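import Pool.Agent.H83.G.Targets5

/-!
Theorem G (MP_ee74d2_an), group G4: the induction on scales with a general exponent `p = 2 + x`
(`m x > 2`). The two-ends case `TENp m L x` is a hypothesis of the broad part and the recursion; it
follows from the final linear programme `T_ALGx m x`, which for `m = 3`, `x = 1` is
`Pool.Agent.H94.G.alg3`.
-/

set_option autoImplicit false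

namespace Pool.Agent.H22.G4

open MeasureTheory Set
open Pool.Agent.H83.G
open scoped ENNReal NNReal RealInnerProductSpace

/-- the level set estimate at scale `R` with constant `g`, for the exponent `2 + x` -/
def Bdx (m L : ℕ) (x κ R g : ℝ) : Prop :=
  ∀ (A H : ℝ) (G : Z m → ℂ) (X : Finset (Z m)), 0 < A → 0 < H → Cls L κ R A G → Sep X →
    (∀ z ∈ X, H ≤ ‖TF G z‖) →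
    (X.card : ℝ) * H ^ (2 + x) ≤ g * A ^ x * R ^ (m * x / 2 - 1) * ∫ ζ, ‖G ζ‖ ^ 2

/-- BASx: trivial bounds -/
def T_BASx : Prop := ∀ (m L : ℕ) (x : ℝ), 1 ≤ m → 0 < x → x ≤ 4 → ∃ C : ℝ, 0 < C ∧
  (∀ κ R : ℝ, 0 ≤ κ → κ ≤ 1 / 2 → 1 ≤ R → Bdx m L x κ R (C * R)) ∧
  ∀ (κ R A H : ℝ) (G : Z m → ℂ) (X : Finset (Z m)), 0 ≤ κ → κ ≤ 1 / 2 → 1 ≤ R → 0 < A → 0 < H →
    H ≤ A → Cls L κ R A G → Sep X → (∀ z ∈ X, H ≤ ‖TF G z‖) →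
    (X.card : ℝ) * H ^ (2 + x) ≤ C * A ^ x * ∫ ζ, ‖G ζ‖ ^ 2

/-- NARx: the narrow part -/
def T_NARx : Prop := ∀ (m L : ℕ) (x : ℝ) (β : E m → ℂ) (c : ℝ), 1 ≤ m → 0 < x → x ≤ 4 →
  2 < m * x → IsPU β → 0 < c →
  ∃ C : ℝ, 0 < C ∧ ∀ (K κ R A H g : ℝ) (G : Z m → ℂ) (X : Finset (Z m)), 1 ≤ K → 0 ≤ κ →
  κ ≤ 1 / 2 → K ^ 2 ≤ R → 0 < A → 0 < H → 0 ≤ g → Bdx m L x κ (R / K ^ 2) g → Cls L κ R A G →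
  Sep X → (∀ z ∈ X, ∃ k ∈ Ks m K⁻¹, c * H ≤ ‖TP β (ctr K⁻¹ k) K⁻¹ G z‖) →
  (X.card : ℝ) * H ^ (2 + x) ≤
    C * K ^ (2 - m * x) * g * A ^ x * R ^ (m * x / 2 - 1) * ∫ ζ, ‖G ζ‖ ^ 2

/-- OENx: one end -/
def T_OENx : Prop := ∀ (m L N : ℕ) (x : ℝ) (β : E m → ℂ) (Ψ Ξ : Z m → ℂ) (ψ χ : Z m → ℝ)
  (δ ε₀ : ℝ),
  1 ≤ m → 0 < x → x ≤ 4 → 2 < m * x → IsPU β → IsPsi Ψ ψ → IsLow Ξ χ → 0 < δ → δ ≤ 1 / 4 →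
  0 < ε₀ → ε₀ ≤ 1 / 2 →
  2 * m + 6 ≤ L → 2 * m + 6 ≤ N → ∃ C : ℝ, 1 ≤ C ∧ ∀ (κ R A H g : ℝ) (G : Z m → ℂ)
  (S : Finset (Pk m)) (QQ : Finset (Zi m)) (l k : ℕ) (X : Finset (Z m)), 0 ≤ κ → κ ≤ 3 / 8 →
  1 ≤ R → C ≤ R ^ δ → C ≤ R ^ ε₀ → 0 < A → 0 < H → 0 ≤ g →
  Bdx m L x (κ + C * R ^ (-δ)) (R ^ (1 - ε₀)) g → Cls L κ R A G → Sep X →
  (∀ W ∈ S, W.1 ∈ Ks m (sR R)) →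
  (∀ z ∈ X, cb (Real.sqrt R) z ∈ QQ ∧ H ≤ ‖∑ W ∈ SB QQ R (R ^ (1 - ε₀)) δ l k S
    (bl R (R ^ (1 - ε₀)) (cb (Real.sqrt R) z)), Fp β ψ R δ G W z‖) →
  (X.card : ℝ) * H ^ (2 + x) ≤ C * R ^ (2 * lo m * δ) * 2 ^ k * g * A ^ x *
    R ^ (m * x / 2 - 1) * ∑ W ∈ S, al N β R δ G W ^ 2 * R ^ (((m : ℝ) + 2) / 2)

/-- the final linear programme -/
def T_ALGx (m : ℕ) (x : ℝ) : Prop := ∀ (N H q E A L R : ℝ) (M1 M t b a : Fin 3 → ℝ),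
  0 < N → 0 < H → 0 < q → 0 < E → 0 < A → 1 ≤ L → 1 ≤ R →
  (∀ i, 0 < M1 i) → (∀ i, 0 < M i) → (∀ i, 0 < t i) → (∀ i, 1 ≤ b i) → (∀ i, 0 < a i) →
  (∀ i, t i * b i * a i ^ 2 * R ^ ((m : ℝ) / 2) ≤ L * E) →
  E ≤ L * A ^ 2 * R ^ ((m : ℝ) + 1) →
  (∀ i, q * M i ≤ L * t i * R ^ (1 / 2 : ℝ)) →
  (∀ i j, i ≠ j → q * M i * M j ^ 2 ≤ L * t i * t j) →
  N * (M1 0 * M1 1 * M1 2) ≤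
    L * q * ((M 0 * b 0) * (M 1 * b 1) * (M 2 * b 2)) * R ^ (((m : ℝ) - 1) / 2) →
  (∀ i, N * H ^ 2 ≤ L * q * M i * b i * a i ^ 2 * R ^ (((m : ℝ) + 1) / 2)) →
  (∀ i, N * H ^ (2 * ((m : ℝ) + 2) / m) ≤
    L * M1 i ^ (2 / (m : ℝ)) * a i ^ (2 * ((m : ℝ) + 2) / m) * t i * b i *
      R ^ (((m : ℝ) + 2) / 2)) →
  (∀ i, M1 i ≤ L * M i) → (∀ i, a i ≤ L * A) →
  N * H ^ (2 + x) ≤ L ^ 4 * A ^ x * R ^ ((m : ℝ) * x / 2) * E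

/-- the two-ends case for fixed `m`, `L`, `x` -/
def TENp (m L : ℕ) (x : ℝ) : Prop := ∀ (β : E m → ℂ) (Ψ : Z m → ℂ) (ψ : Z m → ℝ)
  (K δ ε₀ b₀ B : ℝ),
  IsPU β → IsPsi Ψ ψ → 1 ≤ K → 0 < δ → δ ≤ 1 / 100 → 0 < ε₀ → ε₀ ≤ 1 / 4 → 0 < b₀ →
  1 ≤ B → ∃ N₀ : ℕ, ∀ N : ℕ, N₀ ≤ N → ∃ C : ℝ, 1 ≤ C ∧
  ∀ (κ R A H En : ℝ) (G : Fin 3 → Z m → ℂ) (c : Fin 3 → E m) (z₀ : Z m)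
  (S : Fin 3 → Finset (Pk m)) (a b : Fin 3 → ℝ) (l k : Fin 3 → ℕ) (QQ : Finset (Zi m)) (ν : ℝ)
  (X : Finset (Z m)), 0 ≤ κ → κ ≤ 3 / 8 → 1 ≤ R → C ≤ R ^ δ → 0 < A → 0 < H → b₀ * A ≤ R ^ δ * H →
  0 < En → (∀ i, Cls L κ R A (G i)) → (∀ i, ‖c i‖ ≤ 4 * m + 4) →
  (∀ i j, i ≠ j → 4 / K ≤ ‖c i - c j‖) →
  Sep X → (∀ z ∈ X, ‖z - z₀‖ ≤ R) →
  (∀ i, ∀ W ∈ S i, W.1 ∈ Ks m (sR R) ∧ (∃ z, ‖z - z₀‖ ≤ R ∧ near R δ W z) ∧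
    ‖ctr (sR R) W.1‖ ≤ 3 ∧ ‖ctr (sR R) W.1 - c i‖ ≤ 1 / K + sR R ∧
    a i ≤ al N β R δ (G i) W ∧
    al N β R δ (G i) W ≤ 2 * a i) →
  (∀ i, ((S i).card : ℝ) ≤ B * R ^ (2 * ((m : ℝ) + 2))) →
  (∀ i, 0 < a i ∧ 1 ≤ b i) →
  (∀ i, ∀ W ∈ S i, b i ≤ (((S i).filter (fun W' => tb R W' = tb R W)).card : ℝ) ∧
    (((S i).filter (fun W' => tb R W' = tb R W)).card : ℝ) ≤ 2 * b i) →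
  (∀ i, ∑ W ∈ S i, al N β R δ (G i) W ^ 2 * R ^ (((m : ℝ) + 2) / 2) ≤ En) →
  En ≤ B * R ^ (lo m * δ) * (A ^ 2 * R ^ ((m : ℝ) + 2)) →
  0 < ν → ν * QQ.card ≤ R ^ δ * X.card →
  (∀ q, ((X.filter (fun z => cb (Real.sqrt R) z = q)).card : ℝ) ≤ 2 * ν) →
  (∀ z ∈ X, cb (Real.sqrt R) z ∈ QQ) →
  (∀ q ∈ QQ, ‖Real.sqrt R • zc q - z₀‖ ≤ ((m : ℝ) + 2) * R) →
  (∀ i, C ≤ (2 : ℝ) ^ k i) →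
  (∀ z ∈ X, ∀ i, H ≤ ‖∑ W ∈ SB QQ R (R ^ (1 - ε₀)) δ (l i) (k i) (S i)
    (bl R (R ^ (1 - ε₀)) (cb (Real.sqrt R) z)), Fp β ψ R δ (G i) W z‖) →
  (X.card : ℝ) * H ^ (2 + x) ≤
    C * R ^ ((lb m - 1) * (δ + ε₀)) * A ^ x * R ^ (m * x / 2 - 1) * En

/-- TENx: two ends -/
def T_TENx : Prop := ∀ (m L : ℕ) (x : ℝ), 3 ≤ m → 0 < x → x ≤ 4 → 2 < m * x → T_ALGx m x →
  TENp m L x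

/-- BROx: the broad part in a ball of radius `R` -/
def T_BROx : Prop := ∀ (m L : ℕ) (x : ℝ) (β : E m → ℂ) (K δ ε₀ ε₁ b₀ : ℝ), 1 ≤ m → 0 < x →
  x ≤ 4 → 2 < m * x → TENp m L x → 2 * m + 6 ≤ L →
  IsPU β → 1 ≤ K → 0 < δ → δ ≤ 1 / 100 → 0 < ε₀ → ε₀ ≤ 1 / 4 → 0 < ε₁ → 0 < b₀ →
  ∃ C : ℝ, 1 ≤ C ∧ ∀ (κ R A H g : ℝ) (G : Fin 3 → Z m → ℂ) (c : Fin 3 → E m) (z₀ : Z m)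
  (X : Finset (Z m)), 0 ≤ κ → κ ≤ 3 / 8 → C ≤ R → 0 < A → 0 < H → b₀ * A ≤ H → 1 ≤ g →
  (∀ i, Cls L κ R A (G i)) → (∀ i, ‖c i‖ ≤ 4 * m + 4) →
  (∀ i, ∀ ζ, G i ζ ≠ 0 → ‖ζ.1⁻¹ • ζ.2.1 - c i‖ ≤ 1 / K) →
  (∀ i j, i ≠ j → 4 / K ≤ ‖c i - c j‖) →
  Sep X → (∀ z ∈ X, ‖z - z₀‖ ≤ R) → (∀ z ∈ X, ∀ i, H ≤ ‖TF (G i) z‖) →
  Bdx m L x (κ + C * R ^ (-δ)) (R ^ (1 - ε₀)) g →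
  (X.card : ℝ) * H ^ (2 + x) ≤
    C * (R ^ (ε₁ + lb m * δ) * g + R ^ (lb m * (δ + ε₀))) * A ^ x * R ^ (m * x / 2 - 1) *
      (∑ i, Er (m + 3) β R δ (G i) z₀).toReal

/-- RECx: the recursion -/
def T_RECx : Prop := ∀ (m L : ℕ) (x : ℝ), 1 ≤ m → 0 < x → x ≤ 4 → 2 < m * x → TENp m L x →
  2 * m + 6 ≤ L → ∃ C₁ : ℝ, 0 < C₁ ∧
  ∀ (K δ ε₀ ε₁ : ℝ), 1 ≤ K → 0 < δ → δ ≤ 1 / 100 → 0 < ε₀ → ε₀ ≤ 1 / 4 → 0 < ε₁ →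
  ∃ C₂ : ℝ, 1 ≤ C₂ ∧ ∀ (κ R g₁ g₂ : ℝ), 0 ≤ κ → κ ≤ 3 / 8 → C₂ ≤ R → 0 ≤ g₁ → 1 ≤ g₂ →
  Bdx m L x κ (R / K ^ 2) g₁ → Bdx m L x (κ + C₂ * R ^ (-δ)) (R ^ (1 - ε₀)) g₂ →
  Bdx m L x κ R (C₁ * K ^ (2 - m * x) * g₁ + C₂ * R ^ (ε₁ + 2 * lb m * δ) * g₂ +
    C₂ * R ^ (2 * lb m * (δ + ε₀)))

/-- MAINx: the level set estimate at all scales -/
def T_MAINx : Prop := ∀ (m L : ℕ) (x ε : ℝ), 1 ≤ m → 0 < x → x ≤ 4 → 2 < m * x →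
  TENp m L x → 2 * m + 6 ≤ L → 0 < ε → ∃ C : ℝ, 0 < C ∧
  ∀ R : ℝ, 1 ≤ R → Bdx m L x (1 / 4) R (C * R ^ ε)

end Pool.Agent.H22.G4
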