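import Pool.Agent.H22.G4.TargetsJ

/-! G4: the final linear programme with four functions for `m = 3`, `x = 8/9` (`p = 26/9`). -/

set_option autoImplicit false

namespace Pool.Agent.H22.G4

open Real

/-- the programme in logarithms, averaged over the four functions -/
theorem alg4_log (N H q E A L R M t b a M1 : ℝ) (hL : 0 ≤ L)
    (hE : t + b + 2 * a + 3 / 2 * R ≤ L + E) (hEA : E ≤ L + 2 * A + 4 * R)
    (hHB : q + 3 * M ≤ L + 2 * t)
    (hLW : N + 4 * M1 ≤ L + q + 4 * (M + b) + 1 / 2 * R)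
    (hL2 : N + 2 * H ≤ L + q + M + b + 2 * a + 2 * R)
    (hRD : N + 10 / 3 * H ≤ L + 2 / 3 * M1 + 10 / 3 * a + t + b + 5 / 2 * R)
    (hM : M1 ≤ L + M) (ha : a ≤ L + A) :
    N + (2 + 8 / 9) * H ≤ 4 * L + 8 / 9 * A + 3 * (8 / 9) / 2 * R + E := by
  linarith [hL, hE, hEA, hHB, hLW, hL2, hRD, hM, ha]

private theorem avg4 {x y : Fin 4 → ℝ} (h : ∀ i, x i ≤ y i) :
    (x 0 + x 1 + x 2 + x 3) / 4 ≤ (y 0 + y 1 + y 2 + y 3) / 4 := by
  linarith [h 0, h 1, h 2, h 3]

theorem pf_ALG4 : T_ALG4 := by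
  intro N H q E A L R M1 M t b a hN hH hq hE0 hA hL hR hM1 hM ht hb1 ha hE hEA hMU hHB hLW hL2
    hRD hMM haA
  have hb : ∀ i, 0 < b i := fun i => lt_of_lt_of_le one_pos (hb1 i)
  have hL0 : 0 < L := by linarith
  have hR0 : 0 < R := by linarith
  have lE : ∀ i, log (t i) + log (b i) + 2 * log (a i) + 3 / 2 * log R ≤
      log L + log E := by
    intro i
    have h := log_le_log (mul_pos (mul_pos (mul_pos (ht i) (hb i)) (pow_pos (ha i) 2))
      (rpow_pos_of_pos hR0 _)) (hE i)
    rw [log_mul (mul_pos (mul_pos (ht i) (hb i)) (pow_pos (ha i) 2)).ne'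
      (rpow_pos_of_pos hR0 _).ne', log_mul (mul_pos (ht i) (hb i)).ne' (pow_pos (ha i) 2).ne',
      log_mul (ht i).ne' (hb i).ne', log_pow, log_rpow hR0, log_mul hL0.ne' hE0.ne'] at h
    push_cast at h
    exact h
  have lEA : log E ≤ log L + 2 * log A + 4 * log R := by
    have h := log_le_log hE0 hEA
    rw [log_mul (mul_pos hL0 (pow_pos hA 2)).ne' (rpow_pos_of_pos hR0 _).ne',
      log_mul hL0.ne' (pow_pos hA 2).ne', log_pow, log_rpow hR0] at h
    push_cast at h
    linarith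
  have lHB : ∀ i j, i ≠ j → log q + log (M i) + 2 * log (M j) ≤
      log L + log (t i) + log (t j) := by
    intro i j hij
    have h := log_le_log (mul_pos (mul_pos hq (hM i)) (pow_pos (hM j) 2)) (hHB i j hij)
    rw [log_mul (mul_pos hL0 (ht i)).ne' (ht j).ne', log_mul hL0.ne' (ht i).ne',
      log_mul (mul_pos hq (hM i)).ne' (pow_pos (hM j) 2).ne', log_mul hq.ne' (hM i).ne',
      log_pow] at h
    push_cast at h
    exact h
  have lLW : log N + (log (M1 0) + log (M1 1) + log (M1 2) + log (M1 3)) ≤ log L + log q +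
      ((log (M 0) + log (b 0)) + (log (M 1) + log (b 1)) + (log (M 2) + log (b 2)) +
        (log (M 3) + log (b 3))) + 1 / 2 * log R := by
    have p1 : 0 < ∏ i, M1 i := Finset.prod_pos fun i _ => hM1 i
    have p2 : 0 < ∏ i, (M i * b i) := Finset.prod_pos fun i _ => mul_pos (hM i) (hb i)
    have h := log_le_log (mul_pos hN p1) hLW
    rw [log_mul hN.ne' p1.ne', log_mul (mul_pos (mul_pos hL0 hq) p2).ne'
        (rpow_pos_of_pos hR0 _).ne', log_mul (mul_pos hL0 hq).ne' p2.ne',
      log_mul hL0.ne' hq.ne', log_rpow hR0, log_prod fun i _ => (hM1 i).ne',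
      log_prod fun i _ => (mul_pos (hM i) (hb i)).ne'] at h
    simp only [Fin.sum_univ_four, log_mul (hM _).ne' (hb _).ne'] at h
    push_cast at h
    norm_num at h
    linarith
  have lL2 : ∀ i, log N + 2 * log H ≤ log L + log q + log (M i) + log (b i) + 2 * log (a i) +
      2 * log R := by
    intro i
    have h := log_le_log (mul_pos hN (pow_pos hH 2)) (hL2 i)
    rw [log_mul hN.ne' (pow_pos hH 2).ne', log_pow,
      log_mul (mul_pos (mul_pos (mul_pos (mul_pos hL0 hq) (hM i)) (hb i)) (pow_pos (ha i) 2)).ne'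
        (rpow_pos_of_pos hR0 _).ne',
      log_mul (mul_pos (mul_pos (mul_pos hL0 hq) (hM i)) (hb i)).ne' (pow_pos (ha i) 2).ne',
      log_mul (mul_pos (mul_pos hL0 hq) (hM i)).ne' (hb i).ne',
      log_mul (mul_pos hL0 hq).ne' (hM i).ne', log_mul hL0.ne' hq.ne', log_pow,
      log_rpow hR0] at h
    push_cast at h
    linarith
  have lRD : ∀ i, log N + 10 / 3 * log H ≤
      log L + 2 / 3 * log (M1 i) + 10 / 3 * log (a i) + log (t i) +
      log (b i) + 5 / 2 * log R := by
    intro i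
    have p1 := rpow_pos_of_pos (hM1 i) (2 / ((3 : ℕ) : ℝ))
    have p2 := rpow_pos_of_pos (ha i) (2 * (((3 : ℕ) : ℝ) + 2) / ((3 : ℕ) : ℝ))
    have h := log_le_log (mul_pos hN (rpow_pos_of_pos hH _)) (hRD i)
    rw [log_mul hN.ne' (rpow_pos_of_pos hH _).ne', log_rpow hH,
      log_mul (mul_pos (mul_pos (mul_pos (mul_pos hL0 p1) p2) (ht i)) (hb i)).ne'
        (rpow_pos_of_pos hR0 _).ne',
      log_mul (mul_pos (mul_pos (mul_pos hL0 p1) p2) (ht i)).ne' (hb i).ne',
      log_mul (mul_pos (mul_pos hL0 p1) p2).ne' (ht i).ne',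
      log_mul (mul_pos hL0 p1).ne' p2.ne', log_mul hL0.ne' p1.ne', log_rpow (hM1 i),
      log_rpow (ha i), log_rpow hR0] at h
    push_cast at h
    linarith
  have lMM : ∀ i, log (M1 i) ≤ log L + log (M i) := by
    intro i
    have h := log_le_log (hM1 i) (hMM i)
    rwa [log_mul hL0.ne' (hM i).ne'] at h
  have laA : ∀ i, log (a i) ≤ log L + log A := by
    intro i
    have h := log_le_log (ha i) (haA i)
    rwa [log_mul hL0.ne' hA.ne'] at h
  have key := alg4_log (log N) (log H) (log q) (log E) (log A) (log L) (log R)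
    ((log (M 0) + log (M 1) + log (M 2) + log (M 3)) / 4)
    ((log (t 0) + log (t 1) + log (t 2) + log (t 3)) / 4)
    ((log (b 0) + log (b 1) + log (b 2) + log (b 3)) / 4)
    ((log (a 0) + log (a 1) + log (a 2) + log (a 3)) / 4)
    ((log (M1 0) + log (M1 1) + log (M1 2) + log (M1 3)) / 4) (log_nonneg hL)
    (by linarith [avg4 lE]) lEA
    (by linarith [lHB 0 1 (by decide), lHB 1 2 (by decide), lHB 2 3 (by decide),
      lHB 3 0 (by decide)])
    (by linarith [lLW]) (by linarith [avg4 lL2])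
    (by linarith [avg4 lRD])
    (by linarith [avg4 lMM]) (by linarith [avg4 laA])
  have hpos : 0 < L ^ 4 * A ^ (8 / 9 : ℝ) * R ^ (((3 : ℕ) : ℝ) * (8 / 9) / 2) * E := by
    positivity
  rw [← log_le_log_iff (mul_pos hN (rpow_pos_of_pos hH _)) hpos,
    log_mul hN.ne' (rpow_pos_of_pos hH _).ne', log_rpow hH,
    log_mul (by positivity) hE0.ne', log_mul (by positivity) (by positivity),
    log_mul (by positivity) (by positivity), log_pow, log_rpow hA, log_rpow hR0]
  push_cast
  exact key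

end Pool.Agent.H22.G4
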