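import Pool.Agent.H22.G4.TargetsK
import Pool.Agent.H22.G4.ALG4

/-! G4: the final linear programme with four functions (`m = 3` and `m = 2`). -/

set_option autoImplicit false

namespace Pool.Agent.H22.G4

open Real

/-- from the critical exponent to larger ones -/
private theorem lift {m : ℕ} {x₀ x N H E A L R : ℝ} (h1 : x₀ ≤ x) (h2 : x ≤ x₀ + 1)
    (hN : 0 < N) (hH : 0 < H) (hE : 0 < E) (hA : 0 < A) (hL : 1 ≤ L) (hR : 1 ≤ R)
    (hHA : H ≤ L * A * R ^ ((m : ℝ) / 2))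
    (hb : N * H ^ (2 + x₀) ≤ L ^ 4 * A ^ x₀ * R ^ ((m : ℝ) * x₀ / 2) * E) :
    N * H ^ (2 + x) ≤ L ^ 5 * A ^ x * R ^ ((m : ℝ) * x / 2) * E := by
  have hL0 : 0 < L := by linarith
  have hR0 : 0 < R := by linarith
  have e1 : H ^ (x - x₀) ≤ L * (A ^ (x - x₀) * R ^ ((m : ℝ) / 2 * (x - x₀))) := by
    calc H ^ (x - x₀) ≤ (L * A * R ^ ((m : ℝ) / 2)) ^ (x - x₀) :=
          rpow_le_rpow hH.le hHA (by linarith)
      _ = L ^ (x - x₀) * (A ^ (x - x₀) * R ^ ((m : ℝ) / 2 * (x - x₀))) := by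
          rw [mul_rpow (by positivity) (by positivity), mul_rpow hL0.le hA.le,
            ← rpow_mul hR0.le, mul_assoc]
      _ ≤ L * (A ^ (x - x₀) * R ^ ((m : ℝ) / 2 * (x - x₀))) := by
          refine mul_le_mul_of_nonneg_right ?_ (by positivity)
          calc L ^ (x - x₀) ≤ L ^ (1 : ℝ) := rpow_le_rpow_of_exponent_le hL (by linarith)
            _ = L := rpow_one L
  calc N * H ^ (2 + x) = (N * H ^ (2 + x₀)) * H ^ (x - x₀) := by
        rw [mul_assoc, ← rpow_add hH]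
        refine congrArg (fun e => N * H ^ e) (by ring)
    _ ≤ (L ^ 4 * A ^ x₀ * R ^ ((m : ℝ) * x₀ / 2) * E) *
          (L * (A ^ (x - x₀) * R ^ ((m : ℝ) / 2 * (x - x₀)))) :=
        mul_le_mul hb e1 (by positivity) (by positivity)
    _ = L ^ 5 * (A ^ x₀ * A ^ (x - x₀)) *
          (R ^ ((m : ℝ) * x₀ / 2) * R ^ ((m : ℝ) / 2 * (x - x₀))) * E := by ring
    _ = L ^ 5 * A ^ x * R ^ ((m : ℝ) * x / 2) * E := by
        rw [← rpow_add hA, ← rpow_add hR0]
        have a1 : x₀ + (x - x₀) = x := by ring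
        have a2 : (m : ℝ) * x₀ / 2 + (m : ℝ) / 2 * (x - x₀) = (m : ℝ) * x / 2 := by ring
        rw [a1, a2]

/-- the programme for `m = 2` in logarithms -/
private theorem algk_log (N H q E A L R M t b a M1 : ℝ)
    (hE : t + b + 2 * a + R ≤ L + E) (hEA : E ≤ L + 2 * A + 3 * R)
    (hHB : q + 3 * M ≤ L + 2 * t)
    (hLW : N + 4 * M1 ≤ L + q + 4 * (M + b))
    (hML : N + 8 / 3 * H ≤ L + q + 4 / 3 * (M + b + 2 * a + R))
    (hRD : N + 4 * H ≤ L + M1 + 4 * a + t + b + 2 * R)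
    (hM : M1 ≤ L + M) (ha : a ≤ L + A) :
    N + (2 + 4 / 3) * H ≤ 4 * L + 4 / 3 * A + 2 * (4 / 3) / 2 * R + E := by
  linarith [hE, hEA, hHB, hLW, hML, hRD, hM, ha]

private theorem avg4 {x y : Fin 4 → ℝ} (h : ∀ i, x i ≤ y i) :
    (x 0 + x 1 + x 2 + x 3) / 4 ≤ (y 0 + y 1 + y 2 + y 3) / 4 := by
  linarith [h 0, h 1, h 2, h 3]

private theorem base2 {N H q E A L R : ℝ} {M1 M t b a : Fin 4 → ℝ}
    (hN : 0 < N) (hH : 0 < H) (hq : 0 < q) (hE0 : 0 < E) (hA : 0 < A) (hL : 1 ≤ L) (hR : 1 ≤ R)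
    (hM1 : ∀ i, 0 < M1 i) (hM : ∀ i, 0 < M i) (ht : ∀ i, 0 < t i) (hb1 : ∀ i, 1 ≤ b i)
    (ha : ∀ i, 0 < a i)
    (hE : ∀ i, t i * b i * a i ^ 2 * R ^ (((2 : ℕ) : ℝ) / 2) ≤ L * E)
    (hEA : E ≤ L * A ^ 2 * R ^ (((2 : ℕ) : ℝ) + 1))
    (hHB : ∀ i i', i ≠ i' → q * M i * M i' ^ 2 ≤ L * t i * t i')
    (hLW : N * (∏ i, M1 i) ≤ L * q * (∏ i, (M i * b i)) * R ^ ((((2 : ℕ) : ℝ) - 2) / 2))
    (hRD : ∀ i, N * H ^ (2 * (((2 : ℕ) : ℝ) + 2) / ((2 : ℕ) : ℝ)) ≤
      L * M1 i ^ (2 / ((2 : ℕ) : ℝ)) * a i ^ (2 * (((2 : ℕ) : ℝ) + 2) / ((2 : ℕ) : ℝ)) * t i *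
        b i * R ^ ((((2 : ℕ) : ℝ) + 2) / 2))
    (hML : N * H ^ (8 / 3 : ℝ) ≤
      L * q * ∏ i, (M i * b i * a i ^ 2 * R ^ (((2 : ℕ) : ℝ) / 2)) ^ (1 / 3 : ℝ))
    (hMM : ∀ i, M1 i ≤ L * M i) (haA : ∀ i, a i ≤ L * A) :
    N * H ^ (2 + 4 / 3 : ℝ) ≤
      L ^ 4 * A ^ (4 / 3 : ℝ) * R ^ (((2 : ℕ) : ℝ) * (4 / 3) / 2) * E := by
  have hb : ∀ i, 0 < b i := fun i => lt_of_lt_of_le one_pos (hb1 i)
  have hL0 : 0 < L := by linarith
  have hR0 : 0 < R := by linarith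
  have lE : ∀ i, log (t i) + log (b i) + 2 * log (a i) + log R ≤ log L + log E := by
    intro i
    have h := log_le_log (mul_pos (mul_pos (mul_pos (ht i) (hb i)) (pow_pos (ha i) 2))
      (rpow_pos_of_pos hR0 _)) (hE i)
    rw [log_mul (mul_pos (mul_pos (ht i) (hb i)) (pow_pos (ha i) 2)).ne'
      (rpow_pos_of_pos hR0 _).ne', log_mul (mul_pos (ht i) (hb i)).ne' (pow_pos (ha i) 2).ne',
      log_mul (ht i).ne' (hb i).ne', log_pow, log_rpow hR0, log_mul hL0.ne' hE0.ne'] at h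
    push_cast at h
    linarith
  have lEA : log E ≤ log L + 2 * log A + 3 * log R := by
    have h := log_le_log hE0 hEA
    rw [log_mul (mul_pos hL0 (pow_pos hA 2)).ne' (rpow_pos_of_pos hR0 _).ne',
      log_mul hL0.ne' (pow_pos hA 2).ne', log_pow, log_rpow hR0] at h
    push_cast at h
    linarith
  have lHB : ∀ i j, i ≠ j → log q + log (M i) + 2 * log (M j) ≤
      log L + log (t i) + log (t j) := by
    intro i j hij
    have h := log_le_log (mul_pos (mul_pos hq (hM i)) (pow_pos (hM j) 2)) (hHB i j hij)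
    rw [log_mul (mul_pos hL0 (ht i)).ne' (ht j).ne', log_mul hL0.ne' (ht i).ne',
      log_mul (mul_pos hq (hM i)).ne' (pow_pos (hM j) 2).ne', log_mul hq.ne' (hM i).ne',
      log_pow] at h
    push_cast at h
    exact h
  have lLW : log N + (log (M1 0) + log (M1 1) + log (M1 2) + log (M1 3)) ≤ log L + log q +
      ((log (M 0) + log (b 0)) + (log (M 1) + log (b 1)) + (log (M 2) + log (b 2)) +
        (log (M 3) + log (b 3))) := by
    have p1 : 0 < ∏ i, M1 i := Finset.prod_pos fun i _ => hM1 i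
    have p2 : 0 < ∏ i, (M i * b i) := Finset.prod_pos fun i _ => mul_pos (hM i) (hb i)
    have h := log_le_log (mul_pos hN p1) hLW
    rw [log_mul hN.ne' p1.ne', log_mul (mul_pos (mul_pos hL0 hq) p2).ne'
        (rpow_pos_of_pos hR0 _).ne', log_mul (mul_pos hL0 hq).ne' p2.ne',
      log_mul hL0.ne' hq.ne', log_rpow hR0, log_prod fun i _ => (hM1 i).ne',
      log_prod fun i _ => (mul_pos (hM i) (hb i)).ne'] at h
    simp only [Fin.sum_univ_four, log_mul (hM _).ne' (hb _).ne'] at h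
    push_cast at h
    norm_num at h
    linarith
  have lML : log N + 8 / 3 * log H ≤ log L + log q +
      1 / 3 * ((log (M 0) + log (b 0) + 2 * log (a 0) + log R) +
        (log (M 1) + log (b 1) + 2 * log (a 1) + log R) +
        (log (M 2) + log (b 2) + 2 * log (a 2) + log R) +
        (log (M 3) + log (b 3) + 2 * log (a 3) + log R)) := by
    have p0 : ∀ i, 0 < M i * b i * a i ^ 2 * R ^ (((2 : ℕ) : ℝ) / 2) := fun i =>
      mul_pos (mul_pos (mul_pos (hM i) (hb i)) (pow_pos (ha i) 2)) (rpow_pos_of_pos hR0 _)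
    have p1 : ∀ i, 0 < (M i * b i * a i ^ 2 * R ^ (((2 : ℕ) : ℝ) / 2)) ^ (1 / 3 : ℝ) := fun i =>
      rpow_pos_of_pos (p0 i) _
    have p2 : 0 < ∏ i, (M i * b i * a i ^ 2 * R ^ (((2 : ℕ) : ℝ) / 2)) ^ (1 / 3 : ℝ) :=
      Finset.prod_pos fun i _ => p1 i
    have p3 : ∀ i, log ((M i * b i * a i ^ 2 * R ^ (((2 : ℕ) : ℝ) / 2)) ^ (1 / 3 : ℝ)) =
        1 / 3 * (log (M i) + log (b i) + 2 * log (a i) + log R) := by
      intro i
      rw [log_rpow (p0 i), log_mul (mul_pos (mul_pos (hM i) (hb i)) (pow_pos (ha i) 2)).ne'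
        (rpow_pos_of_pos hR0 _).ne', log_mul (mul_pos (hM i) (hb i)).ne' (pow_pos (ha i) 2).ne',
        log_mul (hM i).ne' (hb i).ne', log_pow, log_rpow hR0]
      push_cast
      norm_num
    have h := log_le_log (mul_pos hN (rpow_pos_of_pos hH _)) hML
    rw [log_mul hN.ne' (rpow_pos_of_pos hH _).ne', log_rpow hH,
      log_mul (mul_pos hL0 hq).ne' p2.ne', log_mul hL0.ne' hq.ne',
      log_prod fun i _ => (p1 i).ne'] at h
    simp only [Fin.sum_univ_four, p3] at h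
    linarith
  have lRD : ∀ i, log N + 4 * log H ≤
      log L + log (M1 i) + 4 * log (a i) + log (t i) + log (b i) + 2 * log R := by
    intro i
    have p1 := rpow_pos_of_pos (hM1 i) (2 / ((2 : ℕ) : ℝ))
    have p2 := rpow_pos_of_pos (ha i) (2 * (((2 : ℕ) : ℝ) + 2) / ((2 : ℕ) : ℝ))
    have h := log_le_log (mul_pos hN (rpow_pos_of_pos hH _)) (hRD i)
    rw [log_mul hN.ne' (rpow_pos_of_pos hH _).ne', log_rpow hH,
      log_mul (mul_pos (mul_pos (mul_pos (mul_pos hL0 p1) p2) (ht i)) (hb i)).ne'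
        (rpow_pos_of_pos hR0 _).ne',
      log_mul (mul_pos (mul_pos (mul_pos hL0 p1) p2) (ht i)).ne' (hb i).ne',
      log_mul (mul_pos (mul_pos hL0 p1) p2).ne' (ht i).ne',
      log_mul (mul_pos hL0 p1).ne' p2.ne', log_mul hL0.ne' p1.ne', log_rpow (hM1 i),
      log_rpow (ha i), log_rpow hR0] at h
    push_cast at h
    linarith
  have lMM : ∀ i, log (M1 i) ≤ log L + log (M i) := by
    intro i
    have h := log_le_log (hM1 i) (hMM i)
    rwa [log_mul hL0.ne' (hM i).ne'] at h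
  have laA : ∀ i, log (a i) ≤ log L + log A := by
    intro i
    have h := log_le_log (ha i) (haA i)
    rwa [log_mul hL0.ne' hA.ne'] at h
  have key := algk_log (log N) (log H) (log q) (log E) (log A) (log L) (log R)
    ((log (M 0) + log (M 1) + log (M 2) + log (M 3)) / 4)
    ((log (t 0) + log (t 1) + log (t 2) + log (t 3)) / 4)
    ((log (b 0) + log (b 1) + log (b 2) + log (b 3)) / 4)
    ((log (a 0) + log (a 1) + log (a 2) + log (a 3)) / 4)
    ((log (M1 0) + log (M1 1) + log (M1 2) + log (M1 3)) / 4)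
    (by linarith [avg4 lE]) lEA
    (by linarith [lHB 0 1 (by decide), lHB 1 2 (by decide), lHB 2 3 (by decide),
      lHB 3 0 (by decide)])
    (by linarith [lLW]) (by linarith [lML])
    (by linarith [avg4 lRD])
    (by linarith [avg4 lMM]) (by linarith [avg4 laA])
  have hpos : 0 < L ^ 4 * A ^ (4 / 3 : ℝ) * R ^ (((2 : ℕ) : ℝ) * (4 / 3) / 2) * E := by
    positivity
  rw [← log_le_log_iff (mul_pos hN (rpow_pos_of_pos hH _)) hpos,
    log_mul hN.ne' (rpow_pos_of_pos hH _).ne', log_rpow hH,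
    log_mul (by positivity) hE0.ne', log_mul (by positivity) (by positivity),
    log_mul (by positivity) (by positivity), log_pow, log_rpow hA, log_rpow hR0]
  push_cast
  exact key

/-- ALGK -/
theorem pf_ALGK : T_ALGKs := by
  refine ⟨fun x hx1 hx2 => ?_, fun x hx1 hx2 => ?_⟩
  · intro N H q E A L R M1 M t b a hN hH hq hE0 hA hL hR hM1 hM ht hb1 ha hE hEA hMU hHB hLW hL2
      hRD _ hMM haA hHA
    have e : (((3 : ℕ) : ℝ) + 2 - ((4 : ℕ) : ℝ)) / 2 = (((3 : ℕ) : ℝ) - 2) / 2 := by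
      push_cast; norm_num
    have key := pf_ALG4 N H q E A L R M1 M t b a hN hH hq hE0 hA hL hR hM1 hM ht hb1 ha hE hEA
      hMU hHB (by rw [e]; exact hLW) hL2 hRD hMM haA
    exact lift hx1 (by linarith) hN hH hE0 hA hL hR hHA key
  · intro N H q E A L R M1 M t b a hN hH hq hE0 hA hL hR hM1 hM ht hb1 ha hE hEA hMU hHB hLW hL2
      hRD hML hMM haA hHA
    exact lift hx1 (by linarith) hN hH hE0 hA hL hR hHA
      (base2 hN hH hq hE0 hA hL hR hM1 hM ht hb1 ha hE hEA hHB hLW hRD (hML rfl) hMM haA)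

end Pool.Agent.H22.G4
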