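import Pool.Agent.H22.G4.Targets

/-!
# The base case of the induction, general exponent
-/

set_option autoImplicit false

namespace Pool.Agent.H22.G4.BAS

open MeasureTheory Set Pool.Agent.H83.G Pool.Agent.H22.G4
open scoped ENNReal NNReal RealInnerProductSpace

theorem norm_le_of_Rg {m : ℕ} {κ R : ℝ} {ζ : Z m} (hκ0 : 0 ≤ κ) (hκ : κ ≤ 1 / 2) (hR : 1 ≤ R)
    (h : ζ ∈ Rg m κ R⁻¹) : ‖ζ‖ ≤ 20 := by
  obtain ⟨h1, h2, h3, h4⟩ := h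
  have hR' : R⁻¹ ≤ 1 := inv_le_one_of_one_le₀ hR
  have hR0 : 0 < R⁻¹ := by positivity
  have hz1 : 1 / 2 ≤ ζ.1 := by linarith
  have hz0 : 0 < ζ.1 := by linarith
  have hz2 : ζ.1 ≤ 9 / 2 := by linarith
  have h5 : ‖ζ.2.1‖ ≤ 3 / 2 * ζ.1 := h3.trans (by nlinarith)
  have h6 : ‖ζ.2.1‖ ^ 2 / ζ.1 ≤ 9 / 4 * ζ.1 := by
    rw [div_le_iff₀ hz0]
    nlinarith [norm_nonneg ζ.2.1]
  have h7 : 0 ≤ ‖ζ.2.1‖ ^ 2 / ζ.1 := by positivity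
  have h8 : (1 + κ) * R⁻¹ ≤ 3 / 2 := by nlinarith
  have h9 := abs_le.1 (h4.trans h8)
  rw [Prod.norm_def, Prod.norm_def]
  refine max_le ?_ (max_le ?_ ?_)
  · rw [Real.norm_eq_abs, abs_of_pos hz0]; linarith
  · linarith
  · rw [Real.norm_eq_abs, abs_le]
    constructor <;> linarith [h9.1, h9.2]

theorem count (hSPW : T_SPW) (hPLN : T_PLN) (m : ℕ) : ∃ C : ℝ, 0 ≤ C ∧
    ∀ (L : ℕ) (κ R A H : ℝ) (G : Z m → ℂ) (X : Finset (Z m)), 0 ≤ κ → κ ≤ 1 / 2 → 1 ≤ R → 0 < H →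
    Cls L κ R A G → Sep X → (∀ z ∈ X, H ≤ ‖TF G z‖) →
    (X.card : ℝ) * H ^ 2 ≤ C * ∫ ζ, ‖G ζ‖ ^ 2 := by
  obtain ⟨C, hC⟩ := hSPW m 0 20 2 1 (by norm_num) (by norm_num)
  refine ⟨C, C.coe_nonneg, ?_⟩
  intro L κ R A H G X hκ0 hκ hR hH hG hX hXH
  have h1 := hC G X (fun _ => 1) hG.1 (fun ζ hζ => norm_le_of_Rg hκ0 hκ hR (hG.2.1 ζ hζ)) hX
    measurable_const (fun z z' => by simp)
  simp only [mul_one, ENNReal.rpow_two] at h1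
  rw [(hPLN m G hG.1).1] at h1
  have hI : 0 ≤ ∫ ζ, ‖G ζ‖ ^ 2 := integral_nonneg fun ζ => by positivity
  have h2 : ENNReal.ofReal ((X.card : ℝ) * H ^ 2) ≤ ∑ z ∈ X, ‖TF G z‖ₑ ^ 2 := by
    have h3 : ∀ z ∈ X, ENNReal.ofReal (H ^ 2) ≤ ‖TF G z‖ₑ ^ 2 := by
      intro z hz
      rw [ENNReal.ofReal_pow hH.le, ← ofReal_norm]
      gcongr
      exact hXH z hz
    calc ENNReal.ofReal ((X.card : ℝ) * H ^ 2) = ∑ _z ∈ X, ENNReal.ofReal (H ^ 2) := by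
          rw [Finset.sum_const, nsmul_eq_mul, ENNReal.ofReal_mul (Nat.cast_nonneg _),
            ENNReal.ofReal_natCast]
      _ ≤ _ := Finset.sum_le_sum h3
  have h4 := h2.trans h1
  have h5 : (C : ℝ≥0∞) * ENNReal.ofReal (∫ ζ, ‖G ζ‖ ^ 2) =
      ENNReal.ofReal ((C : ℝ) * ∫ ζ, ‖G ζ‖ ^ 2) := by
    rw [ENNReal.ofReal_mul C.coe_nonneg, ENNReal.ofReal_coe_nnreal]
  rw [h5] at h4
  exact (ENNReal.ofReal_le_ofReal_iff (mul_nonneg C.coe_nonneg hI)).1 h4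

theorem pf_BASx (hSPK : T_SPK) (hSPW : T_SPW) (hPUX : T_PUX) (hPLN : T_PLN) : T_BASx := by
  intro m L x hm hx _hx4
  obtain ⟨C0, hC0, hcnt⟩ := count hSPW hPLN m
  obtain ⟨β, hβ⟩ := hPUX m
  obtain ⟨C1, hC1, hspk⟩ := hSPK m L β hβ
  have hx' : (m : ℝ) / 2 * x = 1 + (m * x / 2 - 1) := by ring
  have hC1x : 0 < C1 ^ x := Real.rpow_pos_of_pos hC1 _
  refine ⟨C0 * C1 ^ x + C0 + 1, by positivity, ?_, ?_⟩
  · intro κ R hκ0 hκ hR A H G X hA hH hG hX hXH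
    have hI : 0 ≤ ∫ ζ, ‖G ζ‖ ^ 2 := integral_nonneg fun ζ => by positivity
    have hR0 : 0 < R := by linarith
    have hAx : 0 < A ^ x := Real.rpow_pos_of_pos hA _
    have hR3 : 0 < R ^ (m * x / 2 - 1) := Real.rpow_pos_of_pos hR0 _
    rcases X.eq_empty_or_nonempty with h0 | ⟨z, hz⟩
    · rw [h0, Finset.card_empty, Nat.cast_zero, zero_mul]
      positivity
    have h1 := hcnt L κ R A H G X hκ0 hκ hR hH hG hX hXH
    have h2 : H ≤ C1 * A * R ^ ((m : ℝ) / 2) :=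
      (hXH z hz).trans ((hspk κ R A G hκ0 hκ hR hA hG).2 z)
    have h3 : H ^ x ≤ C1 ^ x * A ^ x * (R * R ^ (m * x / 2 - 1)) := by
      calc H ^ x ≤ (C1 * A * R ^ ((m : ℝ) / 2)) ^ x := Real.rpow_le_rpow hH.le h2 hx.le
        _ = C1 ^ x * A ^ x * (R ^ ((m : ℝ) / 2)) ^ x := by
            rw [Real.mul_rpow (by positivity) (by positivity), Real.mul_rpow hC1.le hA.le]
        _ = C1 ^ x * A ^ x * (R * R ^ (m * x / 2 - 1)) := by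
            rw [← Real.rpow_mul hR0.le, hx', Real.rpow_add hR0, Real.rpow_one]
    rw [Real.rpow_add hH, Real.rpow_two]
    have hHx : 0 ≤ H ^ x := Real.rpow_nonneg hH.le _
    calc (X.card : ℝ) * (H ^ 2 * H ^ x) = ((X.card : ℝ) * H ^ 2) * H ^ x := by ring
      _ ≤ (C0 * ∫ ζ, ‖G ζ‖ ^ 2) * (C1 ^ x * A ^ x * (R * R ^ (m * x / 2 - 1))) :=
          mul_le_mul h1 h3 hHx (by positivity)
      _ = (C0 * C1 ^ x) * (R * A ^ x * R ^ (m * x / 2 - 1) * ∫ ζ, ‖G ζ‖ ^ 2) := by ring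
      _ ≤ (C0 * C1 ^ x + C0 + 1) * (R * A ^ x * R ^ (m * x / 2 - 1) * ∫ ζ, ‖G ζ‖ ^ 2) := by
          refine mul_le_mul_of_nonneg_right (by linarith) (by positivity)
      _ = (C0 * C1 ^ x + C0 + 1) * R * A ^ x * R ^ (m * x / 2 - 1) * ∫ ζ, ‖G ζ‖ ^ 2 := by ring
  · intro κ R A H G X hκ0 hκ hR hA hH hHA hG hX hXH
    have hI : 0 ≤ ∫ ζ, ‖G ζ‖ ^ 2 := integral_nonneg fun ζ => by positivity
    have hAx : 0 < A ^ x := Real.rpow_pos_of_pos hA _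
    have h1 := hcnt L κ R A H G X hκ0 hκ hR hH hG hX hXH
    have h3 : H ^ x ≤ A ^ x := Real.rpow_le_rpow hH.le hHA hx.le
    have hHx : 0 ≤ H ^ x := Real.rpow_nonneg hH.le _
    rw [Real.rpow_add hH, Real.rpow_two]
    calc (X.card : ℝ) * (H ^ 2 * H ^ x) = ((X.card : ℝ) * H ^ 2) * H ^ x := by ring
      _ ≤ (C0 * ∫ ζ, ‖G ζ‖ ^ 2) * A ^ x := mul_le_mul h1 h3 hHx (by positivity)
      _ = C0 * (A ^ x * ∫ ζ, ‖G ζ‖ ^ 2) := by ring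
      _ ≤ (C0 * C1 ^ x + C0 + 1) * (A ^ x * ∫ ζ, ‖G ζ‖ ^ 2) := by
          refine mul_le_mul_of_nonneg_right ?_ (by positivity)
          have : 0 ≤ C0 * C1 ^ x := by positivity
          linarith
      _ = _ := by ring

end Pool.Agent.H22.G4.BAS
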