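import Pool.Agent.H22.G4.BRO
import Pool.Agent.H82.G4.Targets3

/-! Theorem G, group G4: the broad part with four functions (after `Pool.Agent.H83.G.BRO`). -/

set_option autoImplicit false

namespace Pool.Agent.H22.G4.BROQ

open Pool.Agent.H83.G Pool.Agent.H83.G.TEN Pool.Agent.H83.G.BRO Pool.Agent.H22.G4
  Pool.Agent.H22.G4.BRO Pool.Agent.H82.G4 MeasureTheory Set
open scoped ENNReal NNReal RealInnerProductSpace

theorem numXq (x : ℝ) (hx0 : 0 < x) (hx4 : x ≤ 4) (X N H H' C9 R δ Y n : ℝ) (hn : 0 ≤ n)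
    (hH' : 0 < H') (hN : 0 ≤ N) (hR : 0 < R) (hC9 : 0 ≤ C9)
    (h1 : X ≤ 256 * (n + 1) ^ 17 * N) (hH : H = 16 * (n + 1) ^ 4 * H')
    (hn2 : (n + 1) ^ 41 ≤ C9 * R ^ (δ / 2)) (hY : N * H' ^ (2 + x) ≤ Y) :
    X * H ^ (2 + x) ≤ 2 ^ 30 * (4 * C9) * R ^ (δ / 2) * Y := by
  have hb : 1 ≤ 16 * (n + 1) ^ 4 := by
    have : 1 ≤ (n + 1) ^ 4 := one_le_pow₀ (by linarith)
    linarith
  have h2 : H ^ (2 + x) ≤ (16 * (n + 1) ^ 4) ^ 6 * H' ^ (2 + x) := by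
    rw [hH, Real.mul_rpow (by positivity) hH'.le]
    have h3 : (16 * (n + 1) ^ 4) ^ (2 + x) ≤ (16 * (n + 1) ^ 4) ^ (6 : ℝ) :=
      Real.rpow_le_rpow_of_exponent_le hb (by linarith)
    have h4 : (16 * (n + 1) ^ 4) ^ (6 : ℝ) = (16 * (n + 1) ^ 4) ^ 6 := by
      rw [← Real.rpow_natCast]; norm_num
    rw [h4] at h3
    gcongr
  have hY0 : 0 ≤ N * H' ^ (2 + x) := by positivity
  calc X * H ^ (2 + x) ≤ (256 * (n + 1) ^ 17 * N) * ((16 * (n + 1) ^ 4) ^ 6 * H' ^ (2 + x)) := by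
        have hHp : 0 ≤ H ^ (2 + x) := by rw [hH]; positivity
        exact mul_le_mul h1 h2 hHp (by positivity)
    _ = 2 ^ 32 * (n + 1) ^ 41 * (N * H' ^ (2 + x)) := by ring
    _ ≤ 2 ^ 32 * (C9 * R ^ (δ / 2)) * Y := by gcongr
    _ = _ := by ring

theorem small6q {m : ℕ} {R δ A D CA CE e B : ℝ} (hR : 0 < R) (hCA : 0 ≤ CA) (hCE : 0 ≤ CE)
    (hD : 1 ≤ D) (hD2 : 4 * CA * CE ≤ D) (hB : 1 ≤ B)
    (he : e ≤ 4 * (CE * R ^ (lo m * δ) * (A ^ 2 * R ^ ((m : ℝ) + 2)))) :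
    CA * e ≤ B * R ^ (lo m * δ) * ((D * A) ^ 2 * R ^ ((m : ℝ) + 2)) := by
  have e1 : D ≤ B * D ^ 2 := by nlinarith
  calc CA * e ≤ CA * (4 * (CE * R ^ (lo m * δ) * (A ^ 2 * R ^ ((m : ℝ) + 2)))) := by gcongr
    _ = (4 * CA * CE) * (R ^ (lo m * δ) * (A ^ 2 * R ^ ((m : ℝ) + 2))) := by ring
    _ ≤ (B * D ^ 2) * (R ^ (lo m * δ) * (A ^ 2 * R ^ ((m : ℝ) + 2))) :=
        mul_le_mul_of_nonneg_right (hD2.trans e1) (by positivity)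
    _ = _ := by ring

theorem small7q {R δ D C9 n x : ℝ} (hR : 1 ≤ R) (hC9 : 1 ≤ C9) (hD : 1 ≤ D)
    (h : 16 * D * C9 ≤ R ^ (δ / 2)) (hn : 0 ≤ n) (hx : 0 ≤ x)
    (hn2 : (n + 1) ^ 25 ≤ C9 * R ^ (δ / 2)) : (n + 1) ^ 8 * x ≤ R ^ δ * x := by
  have hR0 : 0 < R := by linarith
  have e1 : (n + 1) ^ 8 ≤ (n + 1) ^ 25 := pow_le_pow_right₀ (by linarith) (by norm_num)
  have e2 : C9 ≤ R ^ (δ / 2) := by nlinarith
  have e3 : R ^ δ = R ^ (δ / 2) * R ^ (δ / 2) := by rw [← Real.rpow_add hR0]; congr 1; ring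
  refine mul_le_mul_of_nonneg_right ?_ hx
  rw [e3]
  refine (e1.trans hn2).trans ?_
  gcongr

theorem sum4 (f : Fin 4 → ℝ≥0∞) (c : ℝ) (h : ∀ i, f i ≤ ENNReal.ofReal c) :
    ∑ i, f i ≤ ENNReal.ofReal (4 * c) := by
  calc ∑ i, f i ≤ ∑ _i : Fin 4, ENNReal.ofReal c := Finset.sum_le_sum (fun i _ => h i)
    _ = ENNReal.ofReal (4 * c) := by
        rw [Finset.sum_const, Finset.card_univ, Fintype.card_fin, nsmul_eq_mul,
          ENNReal.ofReal_mul (by norm_num)]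
        norm_num

open Classical in
/-- the three pigeonholes for four families -/
theorem pigeon4 (hPG1 : T_PG1) (hPG2 : T_PG2) (hPG3 : T_PG3) {m : ℕ} {N : ℕ} {β : E m → ℂ}
    {ψ : Z m → ℝ} {R r δ : ℝ} {G : Fin 4 → Z m → ℂ} (S : Fin 4 → Finset (Pk m)) (n : ℕ)
    (a₀ H : ℝ) (X : Finset (Z m)) (ha₀ : 0 < a₀) (hH : 0 < H) (hn : 1 ≤ n)
    (hSn : ∀ i, (S i).card ≤ 2 ^ n) (hXn : X.card ≤ 2 ^ n)
    (hal : ∀ i, ∀ W ∈ S i, al N β R δ (G i) W ≤ 2 ^ n * a₀)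
    (hX1 : ∀ i, ∀ z ∈ X, ∀ S' ⊆ S i, (∀ W ∈ S', al N β R δ (G i) W ≤ a₀) →
      ∑ W ∈ S', ‖Fp β ψ R δ (G i) W z‖ ≤ H / 2)
    (hX2 : ∀ i, ∀ z ∈ X, ∀ S' ⊆ S i, (∀ W ∈ S', ¬ Inc R δ (tb R W) (cb (Real.sqrt R) z)) →
      ∑ W ∈ S', ‖Fp β ψ R δ (G i) W z‖ ≤ H / (4 * (n : ℝ) ^ 2) / 2)
    (hXH : ∀ i, ∀ z ∈ X, H ≤ ‖∑ W ∈ S i, Fp β ψ R δ (G i) W z‖) :
    ∃ (S' : Fin 4 → Finset (Pk m)) (a : Fin 4 → ℝ) (b : Fin 4 → ℕ) (l k : Fin 4 → ℕ) (ν : ℕ)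
      (QQ : Finset (Zi m)) (X' : Finset (Z m)), X' ⊆ X ∧ QQ ⊆ X.image (cb (Real.sqrt R)) ∧
      (X.card : ℝ) ≤ 256 * ((n : ℝ) + 1) ^ 17 * X'.card ∧
      (∀ z ∈ X', ∀ i, H ≤ 8 * ((n : ℝ) + 1) ^ 4 * ‖∑ W ∈ SB QQ R r δ (l i) (k i) (S' i)
        (bl R r (cb (Real.sqrt R) z)), Fp β ψ R δ (G i) W z‖) ∧
      (∀ i, S' i ⊆ S i ∧ a₀ ≤ a i ∧ 1 ≤ b i ∧
        (∀ W ∈ S' i, a i ≤ al N β R δ (G i) W ∧ al N β R δ (G i) W ≤ 2 * a i) ∧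
        ∀ W ∈ S' i, b i ≤ ((S' i).filter (fun W' => tb R W' = tb R W)).card ∧
          ((S' i).filter (fun W' => tb R W' = tb R W)).card ≤ 2 * b i) ∧
      1 ≤ ν ∧ (ν : ℝ) * QQ.card ≤ ((n : ℝ) + 1) ^ 8 * X'.card ∧
      (∀ q, (X'.filter (fun z => cb (Real.sqrt R) z = q)).card ≤ 2 * ν) ∧
      ∀ z ∈ X', cb (Real.sqrt R) z ∈ QQ := by
  have hn1 : (1 : ℝ) ≤ n := by exact_mod_cast hn
  have hn0 : (0 : ℝ) < n := by linarith
  -- first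
  obtain ⟨d, X₁, hX₁, hc₁, hd⟩ := iter (X₀ := X) (Λ := 4 * (n : ℝ) ^ 2) (by nlinarith) 4
    (fun i => P1 N β ψ R δ (G i) (S i) n a₀ H)
    (fun i d Y Y' hY h => ⟨h.1, h.2.1, h.2.2.1, fun z hz => h.2.2.2.1 z (hY hz), h.2.2.2.2⟩)
    (fun i Y hY => by
      obtain ⟨S', Y', a, b, g1, g2, g3, g4, g5, g6, g7, g8⟩ := hPG1 (Pk m) (Z m) (Pk m) n (S i) Y
        (fun W z => Fp β ψ R δ (G i) W z) (al N β R δ (G i)) (tb R) a₀ H ha₀ hH hn (hSn i)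
        (hal i) (fun z hz => hX1 i z (hY hz)) (fun z hz => hXH i z (hY hz))
      refine ⟨(S', a, b), Y', g2, by exact_mod_cast g5, g1, g3, g4, g6, g7, ?_⟩
      intro W hW
      have h := g8 W hW
      convert h)
    X (Finset.Subset.refl _)
  -- second
  obtain ⟨X₂, ν, hX₂, hν, hc₂, hν1, hν2⟩ := hPG2 (Z m) (Zi m) n X₁ (cb (Real.sqrt R))
    ((Finset.card_le_card hX₁).trans hXn)
  set QQ := X₂.image (cb (Real.sqrt R)) with hQQ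
  have hQn : QQ.card ≤ 2 ^ n :=
    Finset.card_image_le.trans ((Finset.card_le_card (hX₂.trans hX₁)).trans hXn)
  -- third
  obtain ⟨e, X₃, hX₃, hc₃, he⟩ := iter (X₀ := X₂) (Λ := ((n : ℝ) + 1) ^ 2) (by nlinarith) 4
    (fun i => P3 β ψ R r δ (G i) (d i).1 QQ n (H / (4 * (n : ℝ) ^ 2)))
    (fun i d Y Y' hY h => fun z hz => h z (hY hz))
    (fun i Y hY => by
      obtain ⟨l, k, Y', g1, g2, g3⟩ := hPG3 m n R r δ (H / (4 * (n : ℝ) ^ 2)) QQ (d i).1 Y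
        (fun W z => Fp β ψ R δ (G i) W z) (by positivity) hQn
        (fun z hz => Finset.mem_image_of_mem _ (hY hz))
        (fun z hz S' hS' hW => hX2 i z (hX₁ (hX₂ (hY hz))) S' (hS'.trans (hd i).1) hW)
        (fun z hz => by
          have := (hd i).2.2.2.1 z (hX₂ (hY hz))
          rw [div_le_iff₀ (by positivity)]
          linarith)
      exact ⟨(l, k), Y', g1, by exact_mod_cast g2, g3⟩)
    X₂ (Finset.Subset.refl _)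
  refine ⟨fun i => (d i).1, fun i => (d i).2.1, fun i => (d i).2.2, fun i => (e i).1,
    fun i => (e i).2, ν, QQ, X₃, (hX₃.trans hX₂).trans hX₁,
    Finset.image_subset_image (hX₂.trans hX₁), ?_, ?_, ?_, hν, ?_, ?_, ?_⟩
  · have c2 : (X₁.card : ℝ) ≤ ((n : ℝ) + 1) * X₂.card := by exact_mod_cast hc₂
    calc (X.card : ℝ) ≤ (4 * (n : ℝ) ^ 2) ^ 4 * X₁.card := hc₁
      _ ≤ (4 * ((n : ℝ) + 1) ^ 2) ^ 4 * (((n : ℝ) + 1) * ((((n : ℝ) + 1) ^ 2) ^ 4 * X₃.card)) := by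
          gcongr
          · linarith
          · refine c2.trans ?_
            gcongr
      _ = 256 * ((n : ℝ) + 1) ^ 17 * X₃.card := by ring
  · intro z hz i
    have h1 := he i z hz
    rw [div_le_iff₀ (by positivity)] at h1
    refine h1.trans ?_
    set y := ‖∑ W ∈ SB QQ R r δ (e i).1 (e i).2 (d i).1 (bl R r (cb (Real.sqrt R) z)),
      Fp β ψ R δ (G i) W z‖ with hy
    have hy0 : 0 ≤ y := norm_nonneg _
    calc 2 * ((n : ℝ) + 1) ^ 2 * y * (4 * (n : ℝ) ^ 2)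
        ≤ 2 * ((n : ℝ) + 1) ^ 2 * y * (4 * ((n : ℝ) + 1) ^ 2) := by
          gcongr; linarith
      _ = 8 * ((n : ℝ) + 1) ^ 4 * y := by ring
  · intro i
    exact ⟨(hd i).1, (hd i).2.1, (hd i).2.2.1, (hd i).2.2.2.2.1, (hd i).2.2.2.2.2⟩
  · -- ν QQ ≤
    have h1 : (QQ.card : ℝ) * ν ≤ X₂.card := by
      refine card_tb X₂ (cb (Real.sqrt R)) ν (fun z hz => ?_)
      refine Nat.cast_le.2 (le_trans (hν1 z hz) (le_of_eq ?_))
      congr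
    calc (ν : ℝ) * QQ.card = QQ.card * ν := by ring
      _ ≤ X₂.card := h1
      _ ≤ (((n : ℝ) + 1) ^ 2) ^ 4 * X₃.card := hc₃
      _ = ((n : ℝ) + 1) ^ 8 * X₃.card := by ring
  · intro q
    have h1 := hν2 q
    refine le_trans (Finset.card_le_card ?_) h1
    intro z hz
    simp only [Finset.mem_filter] at hz ⊢
    exact ⟨hX₃ hz.1, hz.2⟩
  · intro z hz
    exact Finset.mem_image_of_mem _ (hX₃ hz)

open Classical in
theorem pf_BROq (hDCP : T_DCP) (hTLS : T_TLS) (hAMU : T_AMU) (hAEN : T_AEN) (hENB : T_ENB)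
    (hPG1 : T_PG1) (hPG2 : T_PG2) (hPG3 : T_PG3) (hOEN : T_OENx) (hPSX : T_PSX)
    (hLWX : T_LWX) (hCBN : T_CBN) (hWT3 : T_WT3) : T_BROq := by
  intro m L x β K c₀ δ ε₀ ε₁ b₀ hm hx0 hx4 hmx hTEN hL hβ hK hc₀ hδ hδ' hε hε' hε₁ hb₀
  have hδ4 : δ ≤ 1 / 4 := by linarith
  obtain ⟨Ψ, ψ, hΨ⟩ := hPSX m
  obtain ⟨Ξ, χ, hΞ⟩ := hLWX m
  obtain ⟨CD, hCD, hD⟩ := hDCP m L β Ψ ψ δ 1 hβ hΨ hδ hδ4
  obtain ⟨CE, hCE, hE⟩ := hENB m L (m + 3) β δ hβ hδ le_rfl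
  obtain ⟨N₀, hN₀⟩ := hTEN β Ψ ψ K c₀ δ ε₀ b₀ (max CD 1) hβ hΨ hK hc₀ hδ hδ' hε hε' hb₀
    (le_max_right _ _)
  obtain ⟨N, hN1, hN2⟩ : ∃ N : ℕ, N₀ ≤ N ∧ 2 * m + 6 ≤ N := ⟨_, le_max_left _ _, le_max_right _ _⟩
  obtain ⟨CT, hCT, hT⟩ := hN₀ N hN1
  clear hN₀
  obtain ⟨CO, hCO, hO⟩ := hOEN m L N x β Ψ Ξ ψ χ δ ε₀ (by omega) hx0 hx4 hmx hβ hΨ hΞ hδ hδ4 hε
    (by linarith)
    hL hN2
  obtain ⟨CA, hA'⟩ := hAEN m N (m + 3) β δ hβ hδ.le (by omega)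
  obtain ⟨C7, hC7, h7⟩ := hTLS m L N β Ψ ψ δ 1 hβ hΨ hδ hδ4 (by omega)
  obtain ⟨C8, hC8, h8⟩ := hAMU m L N β δ hβ hδ.le (by omega)
  obtain ⟨CS, hCS, hS⟩ := card_sep (m := m) hWT3
  have hb₁ : 0 < b₀ / (4 * C7) := by positivity
  have hB1 : 0 < C8 / (b₀ / (4 * C7)) := by positivity
  obtain ⟨B', hB'1, hB'2, hB'3, hB'4, hB'5⟩ : ∃ B' : ℝ, 1 ≤ B' ∧ CD ≤ B' ∧
      C8 / (b₀ / (4 * C7)) ≤ B' ∧ CS ≤ B' ∧ 2 ≤ B' :=
    ⟨CD + C8 / (b₀ / (4 * C7)) + CS + 2, by linarith, by linarith, by linarith, by linarith,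
      by linarith⟩
  obtain ⟨C9, hC9, h9⟩ := logn (2 * ((m : ℝ) + 2)) B' (δ / 2) (by positivity) hB'1
    (by linarith) 41
  obtain ⟨D, hD1, hD2⟩ : ∃ D : ℝ, 1 ≤ D ∧ 4 * (CA : ℝ) * CE ≤ D := by
    have : 0 ≤ 4 * (CA : ℝ) * CE := by positivity
    exact ⟨4 * (CA : ℝ) * CE + 1, by linarith, by linarith⟩
  obtain ⟨C', hC1', hCOC', -, -, hCR'⟩ := constsB δ ε₀ b₀ CD CT CO CA C7 C9 D hδ hδ' hε hb₀ hCD
    hCT hCO CA.2 hC7 hC9 hD1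
  obtain ⟨C, hC1, hCOC, hCC1, hCC2, hCR⟩ : ∃ C : ℝ, 1 ≤ C ∧ CO ≤ C ∧
      2 ^ 30 * (4 * C9) * CO * CT * CA ≤ C ∧ 2 ^ 30 * (4 * C9) * CT * CA * D ^ 4 ≤ C ∧
      ∀ R : ℝ, C ≤ R → 1 ≤ R ∧ CO ≤ R ^ ε₀ ∧ 2 * CD / b₀ ≤ R ∧
      16 * C9 * C7 / b₀ ≤ R ^ (1 - δ / 2) ∧
      CT ≤ R ^ δ ∧ 8 * CO ≤ R ^ δ ∧ 16 * D * C9 ≤ R ^ (δ / 2) := by
    have a1 : (0 : ℝ) ≤ 2 ^ 30 * (4 * C9) * CO * CT * CA := by
      have := CA.2
      positivity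
    have a2 : (0 : ℝ) ≤ 2 ^ 30 * (4 * C9) * CT * CA * D ^ 4 := by
      have := CA.2
      positivity
    exact ⟨C' + 2 ^ 30 * (4 * C9) * CO * CT * CA + 2 ^ 30 * (4 * C9) * CT * CA * D ^ 4, by linarith,
      by linarith, by linarith, by linarith, fun R hR => hCR' R (by linarith)⟩
  obtain ⟨hcb, hinc, -⟩ := hCBN m
  clear hDCP hTLS hAMU hAEN hENB hOEN hTEN hPSX hLWX hCBN hWT3 hC1' hCOC' hCR'
  refine ⟨C, hC1, ?_⟩
  intro κ R A H g G c z₀ X hκ0 hκ hRC hA hH hAH hg hG hc hGc hsep hind hX hXz hXH hBd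
  obtain ⟨hR1, r1, r2, r3, r4, r5, r6⟩ := hCR R hRC
  have hR0 : 0 < R := by linarith
  have hκ' : κ ≤ 1 / 2 := by linarith
  -- planks
  have hfam : ∀ i, ∃ S : Finset (Pk m),
      (∀ W ∈ S, W.1 ∈ Ks m (sR R) ∧ (∃ z, ‖z - z₀‖ ≤ R ∧ near R δ W z) ∧
        ‖ctr (sR R) W.1‖ ≤ 3 ∧ ‖ctr (sR R) W.1 - c i‖ ≤ 1 / K + sR R) ∧
      (S.card : ℝ) ≤ CD * R ^ (2 * ((m : ℝ) + 2)) ∧
      ∀ z ∈ X, H / 2 ≤ ‖∑ W ∈ S, Fp β ψ R δ (G i) W z‖ := fun i =>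
    famA hβ hκ hR1 (hG i) (hGc i) hXz (fun z hz => hXH z hz i) (small1 hR0 hb₀ hA hAH hCD r2)
      (hD κ R A (G i) z₀ hκ0 hκ' hR1 hA (hG i))
  choose S0 hS0 hS0c hS0X using hfam
  obtain ⟨n, hn1, hn3⟩ := h9 R hR1
  have hn2 : ((n : ℝ) + 1) ^ 25 ≤ C9 * R ^ (δ / 2) := by
    refine le_trans ?_ hn3
    exact pow_le_pow_right₀ (by have : (0 : ℝ) ≤ n := Nat.cast_nonneg n; linarith) (by norm_num)
  have hP1 : 1 ≤ R ^ (2 * ((m : ℝ) + 2)) := Real.one_le_rpow hR1 (by positivity)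
  have hn : 1 ≤ n := by
    by_contra h
    have h0 : n = 0 := by omega
    rw [h0, pow_zero] at hn1
    nlinarith
  have hn1' : (1 : ℝ) ≤ n := by exact_mod_cast hn
  obtain ⟨a₀, ha₀⟩ : ∃ a₀ : ℝ, a₀ = b₀ / (4 * C7) * A * R ^ (-((m : ℝ) + 2)) := ⟨_, rfl⟩
  have ha₀0 : 0 < a₀ := by rw [ha₀]; positivity
  have hSn : ∀ i, (S0 i).card ≤ 2 ^ n := by
    intro i
    have h1 : ((S0 i).card : ℝ) ≤ 2 ^ n := by
      refine ((hS0c i).trans ?_).trans hn1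
      gcongr
    exact_mod_cast h1
  have hXn : X.card ≤ 2 ^ n := by
    have h1 : (X.card : ℝ) ≤ 2 ^ n := by
      refine ((hS R z₀ X hR1 hX hXz).trans ?_).trans hn1
      gcongr
    exact_mod_cast h1
  have hal : ∀ i, ∀ W : Pk m, al N β R δ (G i) W ≤ 2 ^ n * a₀ := fun i W =>
    (h8 κ R A (G i) W hκ0 hκ' hR1 hA (hG i)).1.trans
      (small5 hR1 hA hb₀ hC7 hC8 ha₀ hB'3 hn1)
  obtain ⟨S', a, b, l, k, ν, QQ, X', hX'X, hQQ, hXc, hX'H, hS', hν, hνQ, hνX, hX'Q⟩ :=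
    pigeon4 hPG1 hPG2 hPG3 (N := N) (β := β) (ψ := ψ) (R := R) (r := R ^ (1 - ε₀)) (δ := δ)
      (G := G) S0 n a₀ (H / 2) X ha₀0 (by positivity) hn hSn hXn (fun i W _ => hal i W)
      (fun i z _ T hT hTa => ((h7 κ R A (G i) T z hκ0 hκ' hR1 hA (hG i)
        (fun W hW => (hS0 i W (hT hW)).1)).2 a₀ ha₀0.le hTa).trans
          (small4 hR1 hb₀ hAH hC7 ha₀))
      (fun i z _ T hT hTa => ((h7 κ R A (G i) T z hκ0 hκ' hR1 hA (hG i)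
        (fun W hW => (hS0 i W (hT hW)).1)).1
          (fun W hW hnear => hTa W hW (hinc R δ W z hR1 hδ.le hnear))).trans
          (small2 hR1 hb₀ hA hAH hC7 r3 hn1' hn2))
      (fun i z hz => hS0X i z hz)
  obtain ⟨H', hH'⟩ : ∃ H' : ℝ, H' = H / (16 * ((n : ℝ) + 1) ^ 4) := ⟨_, rfl⟩
  have hH'0 : 0 < H' := by rw [hH']; positivity
  have hHH' : H = 16 * ((n : ℝ) + 1) ^ 4 * H' := by rw [hH']; field_simp
  have hX'H' : ∀ z ∈ X', ∀ i, H' ≤ ‖∑ W ∈ SB QQ R (R ^ (1 - ε₀)) δ (l i) (k i) (S' i)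
      (bl R (R ^ (1 - ε₀)) (cb (Real.sqrt R) z)), Fp β ψ R δ (G i) W z‖ := by
    intro z hz i
    have h1 := hX'H z hz i
    rw [hH', div_le_iff₀ (by positivity)]
    linarith
  have hX's : Sep X' := fun z hz z' hz' => hX z (hX'X hz) z' (hX'X hz')
  clear hal hX'H h7 hS0X hSn hXn h9 hPG1 hPG2 hPG3
  -- energies
  have hEi : ∀ i, Er (m + 3) β R δ (G i) z₀ ≤
      ENNReal.ofReal (CE * R ^ (lo m * δ) * (A ^ 2 * R ^ ((m : ℝ) + 2))) := fun i =>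
    hE κ R A (G i) z₀ hκ0 hκ' hR1 hA (hG i)
  have hEs : ∑ i, Er (m + 3) β R δ (G i) z₀ ≤
      ENNReal.ofReal (4 * (CE * R ^ (lo m * δ) * (A ^ 2 * R ^ ((m : ℝ) + 2)))) :=
    sum4 _ _ hEi
  have hfin : ∑ i, Er (m + 3) β R δ (G i) z₀ ≠ ⊤ :=
    ne_top_of_le_ne_top ENNReal.ofReal_ne_top hEs
  obtain ⟨e, he⟩ : ∃ e : ℝ, e = (∑ i, Er (m + 3) β R δ (G i) z₀).toReal := ⟨_, rfl⟩
  have he0 : 0 ≤ e := by rw [he]; exact ENNReal.toReal_nonneg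
  have heE : e ≤ 4 * (CE * R ^ (lo m * δ) * (A ^ 2 * R ^ ((m : ℝ) + 2))) := by
    rw [he]
    exact ENNReal.toReal_le_of_le_ofReal (by positivity) hEs
  have hGr : ∀ i, ∀ ζ, G i ζ ≠ 0 → ζ ∈ Rg m (1 / 2) R⁻¹ := fun i ζ hζ =>
    Rg_mono hκ' (by positivity) hκ' ((hG i).2.1 ζ hζ)
  have hEn : ∀ i, ∑ W ∈ S' i, al N β R δ (G i) W ^ 2 * R ^ (((m : ℝ) + 2) / 2) ≤ CA * e := by
    intro i
    rw [he]
    refine energy hR0 hfin (fun W _ => (h8 κ R A (G i) W hκ0 hκ' hR1 hA (hG i)).2) ?_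
    refine (hA' R (G i) z₀ (S' i) hR1 (hG i).1 (hGr i) (fun W hW => ?_)).trans ?_
    · have := hS0 i W ((hS' i).1 hW)
      exact ⟨this.1, this.2.1⟩
    · have : Er (m + 3) β R δ (G i) z₀ ≤ ∑ i, Er (m + 3) β R δ (G i) z₀ :=
        Finset.single_le_sum (f := fun i => Er (m + 3) β R δ (G i) z₀) (fun _ _ => zero_le)
          (Finset.mem_univ i)
      gcongr
  rw [← he]
  -- the two cases
  by_cases hk : ∀ i, CT ≤ (2 : ℝ) ^ k i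
  · -- two ends
    rcases Finset.eq_empty_or_nonempty X' with hemp | ⟨z₁, hz₁⟩
    · have h0 : (X.card : ℝ) = 0 := by
        rw [hemp] at hXc
        have a1 : (0 : ℝ) ≤ X.card := Nat.cast_nonneg _
        simp only [Finset.card_empty, Nat.cast_zero, mul_zero] at hXc
        linarith
      rw [h0, zero_mul]
      positivity
    have hEnpos : 0 < (CA : ℝ) * e := by
      have h1 := hX'H' z₁ hz₁ 0
      obtain ⟨W, hW⟩ : (S' 0).Nonempty := by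
        rw [Finset.nonempty_iff_ne_empty]
        intro h2
        have h3 : SB QQ R (R ^ (1 - ε₀)) δ (l 0) (k 0) (S' 0)
            (bl R (R ^ (1 - ε₀)) (cb (Real.sqrt R) z₁)) = ∅ := by
          rw [Finset.eq_empty_iff_forall_notMem]
          intro W hW
          have := (mem_SB.1 hW).1
          rw [h2] at this
          simp at this
        rw [h3] at h1
        simp only [Finset.sum_empty, norm_zero] at h1
        linarith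
      refine lt_of_lt_of_le ?_ (hEn 0)
      have h4 : 0 < al N β R δ (G 0) W :=
        lt_of_lt_of_le ha₀0 ((hS' 0).2.1.trans ((hS' 0).2.2.2.1 W hW).1)
      refine lt_of_lt_of_le (by positivity : 0 < al N β R δ (G 0) W ^ 2 * R ^ (((m : ℝ) + 2) / 2))
        (Finset.single_le_sum (f := fun W => al N β R δ (G 0) W ^ 2 * R ^ (((m : ℝ) + 2) / 2))
          (fun W _ => by positivity) hW)
    have key := hT κ R (D * A) H' (CA * e) G c z₀ S' a (fun i => (b i : ℝ)) l k QQ (ν : ℝ) X' hκ0 hκ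
      hR1 r4 (by positivity) hH'0 ?_ hEnpos
      (fun i => Cls_monoA hR0 hA.le (le_mul_of_one_le_left hA.le hD1) (hG i)) hc hsep hind hX's
      (fun z hz => hXz z (hX'X hz)) ?_ ?_ ?_ ?_ hEn ?_ ?_ ?_ ?_ hX'Q ?_ hk hX'H'
    · refine (numXq x hx0 hx4 X.card X'.card H H' C9 R δ _ n (by positivity) hH'0
        (Nat.cast_nonneg _) hR0 (by linarith) hXc hHH' hn3 key).trans ?_
      exact caseTx m x hx4 R δ ε₀ ε₁ C (4 * C9) CT CA D g A e hR1 hδ hε (by linarith) hA he0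
        (by linarith) (by linarith) CA.2 hD1 hCC2 (by linarith)
    · rw [hH']
      exact small3 hR1 hb₀ hA hAH hD1 r6 (by positivity) hH hn2
    · intro i W hW
      have h1 := hS0 i W ((hS' i).1 hW)
      have h2 := (hS' i).2.2.2.1 W hW
      exact ⟨h1.1, h1.2.1, h1.2.2.1, h1.2.2.2, h2.1, h2.2⟩
    · intro i
      have h1 : ((S' i).card : ℝ) ≤ (S0 i).card := by
        exact_mod_cast Finset.card_le_card (hS' i).1
      exact (h1.trans (hS0c i)).trans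
        (mul_le_mul_of_nonneg_right (le_max_left _ _) (by positivity))
    · intro i
      exact ⟨lt_of_lt_of_le ha₀0 (hS' i).2.1, by exact_mod_cast (hS' i).2.2.1⟩
    · intro i W hW
      have h1 := (hS' i).2.2.2.2 W hW
      exact ⟨by exact_mod_cast h1.1, by exact_mod_cast h1.2⟩
    · exact small6q hR0 CA.2 hCE.le hD1 hD2 (le_max_right _ _) heE
    · exact lt_of_lt_of_le one_pos (by exact_mod_cast hν)
    · exact hνQ.trans (small7q hR1 hC9 hD1 r6 (Nat.cast_nonneg _) (Nat.cast_nonneg _) hn2)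
    · intro q
      exact_mod_cast hνX q
    · intro q hq
      obtain ⟨z, hz, rfl⟩ := Finset.mem_image.1 (hQQ hq)
      exact small8 hR1 (hcb (Real.sqrt R) z (by positivity)) (hXz z hz)
  · -- one end
    push Not at hk
    obtain ⟨i, hi⟩ := hk
    have hRδ0 : 0 < R ^ δ := by positivity
    have hκO : κ + CO * R ^ (-δ) ≤ 1 / 2 := by
      have h1 : CO * R ^ (-δ) ≤ 1 / 8 := by
        rw [Real.rpow_neg hR0.le, ← div_eq_mul_inv, div_le_iff₀ hRδ0]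
        linarith
      linarith
    have hκO' : κ + CO * R ^ (-δ) ≤ κ + C * R ^ (-δ) := by gcongr
    have key := hO κ R A H' g (G i) (S' i) QQ (l i) (k i) X' hκ0 hκ hR1 (by linarith) r1 hA hH'0
      (by linarith) (Bdx_mono hκO' (by positivity) hκO hBd) (hG i) hX's
      (fun W hW => (hS0 i W ((hS' i).1 hW)).1)
      (fun z hz => ⟨hX'Q z hz, hX'H' z hz i⟩)
    refine (numXq x hx0 hx4 X.card X'.card H H' C9 R δ _ n (by positivity) hH'0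
        (Nat.cast_nonneg _) hR0 (by linarith) hXc hHH' hn3 key).trans ?_
    exact caseOx m x R δ ε₀ ε₁ C (4 * C9) CO CT CA (2 ^ k i) g A _ e hR1 hδ hε₁ (by linarith) hA he0
      (by linarith) (by linarith) (by positivity) hi.le CA.2
      (Finset.sum_nonneg (fun W _ => by positivity)) (hEn i) hCC1 (by linarith)

end Pool.Agent.H22.G4.BROQ
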