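import Pool.Agent.H22.G4.TargetsJ

/-!
G4: `j` families of planks in the cubes (TEJ). The proof is helper68's proof of TE3.
-/

set_option autoImplicit false

namespace Pool.Agent.H22.G4

open Pool.Agent.H83.G
open MeasureTheory Set
open scoped ENNReal NNReal RealInnerProductSpace

open scoped Classical in
/-- counting by fibres -/
private theorem card_fib {m : ℕ} {R r δ b M : ℝ} {S : Finset (Pk m)} {QQ : Finset (Zi m)}
    {l k : ℕ} {q : Zi m} (hb : 0 < b)
    (hS : ∀ W ∈ S, ((S.filter (fun W' => tb R W' = tb R W)).card : ℝ) ≤ 2 * b)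
    (hM : (((S.image (tb R)).filter (fun T => Inc R δ T q ∧
      Sh QQ R r δ l k T (bl R r q))).card : ℝ) ≤ 2 * M) :
    (((SB QQ R r δ l k S (bl R r q)).filter (fun W => Inc R δ (tb R W) q)).card : ℝ) ≤
      4 * (M * b) := by
  set S' := (SB QQ R r δ l k S (bl R r q)).filter (fun W => Inc R δ (tb R W) q) with hS'
  have hmem : ∀ W, W ∈ S' ↔ (W ∈ S ∧ Sh QQ R r δ l k (tb R W) (bl R r q)) ∧
      Inc R δ (tb R W) q := by
    intro W
    rw [hS', Finset.mem_filter, SB, Finset.mem_filter]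
  have h1 : (S'.card : ℝ) = ∑ T ∈ S'.image (tb R),
      ((S'.filter (fun W => tb R W = T)).card : ℝ) := by
    rw [Finset.card_eq_sum_card_image (tb R) S']
    push_cast
    rfl
  have h2 : ∀ T ∈ S'.image (tb R), ((S'.filter (fun W => tb R W = T)).card : ℝ) ≤ 2 * b := by
    intro T hT
    obtain ⟨W, hW, rfl⟩ := Finset.mem_image.1 hT
    refine le_trans ?_ (hS W ((hmem W).1 hW).1.1)
    have : S'.filter (fun W' => tb R W' = tb R W) ⊆ S.filter (fun W' => tb R W' = tb R W) := by
      intro W' hW'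
      rw [Finset.mem_filter] at hW' ⊢
      exact ⟨((hmem W').1 hW'.1).1.1, hW'.2⟩
    exact_mod_cast Finset.card_le_card this
  have h3 : ((S'.image (tb R)).card : ℝ) ≤ 2 * M := by
    refine le_trans ?_ hM
    have : S'.image (tb R) ⊆ (S.image (tb R)).filter (fun T => Inc R δ T q ∧
        Sh QQ R r δ l k T (bl R r q)) := by
      intro T hT
      obtain ⟨W, hW, rfl⟩ := Finset.mem_image.1 hT
      rw [Finset.mem_filter]
      have h := (hmem W).1 hW
      exact ⟨Finset.mem_image_of_mem _ h.1.1, h.2, h.1.2⟩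
    exact_mod_cast Finset.card_le_card this
  calc (S'.card : ℝ) ≤ ∑ T ∈ S'.image (tb R), 2 * b := by rw [h1]; exact Finset.sum_le_sum h2
    _ = (S'.image (tb R)).card * (2 * b) := by rw [Finset.sum_const, nsmul_eq_mul]
    _ ≤ 2 * M * (2 * b) := mul_le_mul_of_nonneg_right h3 (by positivity)
    _ = 4 * (M * b) := by ring

/-- TEJ -/
theorem pf_TEJ (hLW : T_LWJ) (hCBN : T_CBN) : T_TEJ := by
  classical
  intro m j c hj hc
  obtain ⟨C, hC1, hC⟩ := hLW m j c hj hc
  have h4 : (1 : ℝ) ≤ 4 ^ j := one_le_pow₀ (by norm_num)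
  refine ⟨4 ^ j * C, by nlinarith, ?_⟩
  intro R r δ S b M M₁ QQ l k X hR hδ hX hctr htr hpos hfib hMT hM1
  obtain ⟨hcb1, hcb2, -⟩ := hCBN m
  have hR0 : 0 < R := by linarith
  have hsq : 0 < Real.sqrt R := Real.sqrt_pos.2 hR0
  set Q := X.image (cb (Real.sqrt R)) with hQ
  set P : ℝ := ∏ i, (M i * b i) with hP
  have key : ∀ q ∈ Q, ((X.filter (fun z => cb (Real.sqrt R) z = q)).card : ℝ) *
      (∏ i, M₁ i) ≤ C * R ^ (((m : ℝ) + 2 - j) / 2 + 2 * j * δ) * (4 ^ j * P) := by
    intro q hq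
    obtain ⟨z₁, hz₁, hz₁q⟩ := Finset.mem_image.1 hq
    set S' : Fin j → Finset (Pk m) := fun i =>
      (SB QQ R r δ (l i) (k i) (S i) (bl R r q)).filter (fun W => Inc R δ (tb R W) q) with hS'
    have hSS : ∀ i, ∀ W ∈ S' i, W ∈ S i := by
      intro i W hW
      have h := Finset.mem_filter.1 hW
      rw [SB, Finset.mem_filter] at h
      exact h.1.1
    have hcard : ∀ i, ((S' i).card : ℝ) ≤ 4 * (M i * b i) := by
      intro i
      have h := hMT z₁ hz₁ i
      rw [hz₁q] at h
      exact card_fib (hpos i).1 (hfib i) h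
    have h := hC R δ (Real.sqrt R • zc q) (X.filter (fun z => cb (Real.sqrt R) z = q)) S' M₁
      hR hδ ?_ ?_ ?_ ?_ ?_ ?_
    · refine h.trans ?_
      have hpw : 0 ≤ C * R ^ (((m : ℝ) + 2 - j) / 2 + 2 * j * δ) :=
        mul_nonneg (by linarith) (Real.rpow_nonneg hR0.le _)
      refine mul_le_mul_of_nonneg_left ?_ hpw
      have h5 : ∏ i, ((S' i).card : ℝ) ≤ ∏ i, (4 * (M i * b i)) :=
        Finset.prod_le_prod (fun i _ => Nat.cast_nonneg _) fun i _ => hcard i
      refine h5.trans (le_of_eq ?_)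
      rw [Finset.prod_mul_distrib, Finset.prod_const, Finset.card_univ, Fintype.card_fin, hP]
    · intro z hz z' hz' hne
      exact hX z (Finset.mem_filter.1 hz).1 z' (Finset.mem_filter.1 hz').1 hne
    · intro z hz
      have h1 := hcb1 (Real.sqrt R) z hsq
      rw [(Finset.mem_filter.1 hz).2] at h1
      rw [← Real.sqrt_eq_rpow]
      exact h1
    · intro i W hW
      exact hctr i W (hSS i W hW)
    · intro W hW
      exact htr W fun i => hSS i (W i) (hW i)
    · intro i
      exact (hpos i).2.2.le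
    · intro z hz i
      obtain ⟨hzX, hzq⟩ := Finset.mem_filter.1 hz
      refine (hM1 z hzX i).trans ?_
      rw [hzq]
      have : (SB QQ R r δ (l i) (k i) (S i) (bl R r q)).filter (fun W => near R δ W z) ⊆
          (S' i).filter (fun W => near R δ W z) := by
        intro W hW
        rw [Finset.mem_filter] at hW ⊢
        refine ⟨?_, hW.2⟩
        rw [hS', Finset.mem_filter]
        refine ⟨hW.1, ?_⟩
        have h2 := hcb2 R δ W z hR hδ hW.2
        rwa [hzq] at h2
      exact_mod_cast Finset.card_le_card this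
  have hsum : (X.card : ℝ) = ∑ q ∈ Q,
      ((X.filter (fun z => cb (Real.sqrt R) z = q)).card : ℝ) := by
    rw [hQ, Finset.card_eq_sum_card_image (cb (Real.sqrt R)) X]
    push_cast
    rfl
  calc (X.card : ℝ) * (∏ i, M₁ i)
      = ∑ q ∈ Q, ((X.filter (fun z => cb (Real.sqrt R) z = q)).card : ℝ) *
        (∏ i, M₁ i) := by rw [hsum, Finset.sum_mul]
    _ ≤ ∑ q ∈ Q, C * R ^ (((m : ℝ) + 2 - j) / 2 + 2 * j * δ) * (4 ^ j * P) :=
        Finset.sum_le_sum key
    _ = Q.card * (C * R ^ (((m : ℝ) + 2 - j) / 2 + 2 * j * δ) * (4 ^ j * P)) := by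
        rw [Finset.sum_const, nsmul_eq_mul]
    _ = 4 ^ j * C * R ^ (2 * j * δ) * Q.card * P * R ^ (((m : ℝ) + 2 - j) / 2) := by
        rw [Real.rpow_add hR0]; ring

end Pool.Agent.H22.G4
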