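import Pool.Agent.H22.G4.LWJ
import Pool.Agent.H22.G4.TEJ

/-! G4: transversality by the determinant of the squared distances. -/

set_option autoImplicit false

namespace Pool.Agent.H22.G4

open Pool.Agent.H83.G
open Pool.Agent.H22.G
open scoped RealInnerProductSpace

section

variable {m j : ℕ}

/-- the matrix of the squared distances -/
noncomputable def Dm (η : Fin j → E m) : Matrix (Fin j) (Fin j) ℝ :=
  Matrix.of fun i i' => ‖η i - η i'‖ ^ 2

/-- the Lorentz pairing with a null vector -/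
noncomputable def lp (η : E m) (v : Z m) : ℝ := ‖η‖ ^ 2 * v.1 + v.2.2 - 2 * ⟪η, v.2.1⟫

theorem lp_nv (η η' : E m) : lp η (nv η') = ‖η - η'‖ ^ 2 := by
  unfold lp nv
  rw [norm_sub_sq_real]
  ring

theorem lp_add (η : E m) (v v' : Z m) : lp η (v + v') = lp η v + lp η v' := by
  unfold lp
  rw [Prod.fst_add, Prod.snd_add, Prod.fst_add, Prod.snd_add, inner_add_right]
  ring

theorem lp_smul (η : E m) (c : ℝ) (v : Z m) : lp η (c • v) = c * lp η v := by
  unfold lp
  rw [Prod.smul_fst, Prod.smul_snd, Prod.smul_fst, Prod.smul_snd, inner_smul_right, smul_eq_mul,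
    smul_eq_mul]
  ring

theorem lp_le {η : E m} (hη : ‖η‖ ≤ 3) (v : Z m) : |lp η v| ≤ 16 * ‖v‖ := by
  have h1 := n1 v
  have h2 := n2 v
  have h3 := n3 v
  have h4 : |⟪η, v.2.1⟫| ≤ 3 * ‖v‖ := (abs_real_inner_le_norm _ _).trans
    (mul_le_mul hη h2 (norm_nonneg _) (by norm_num))
  have h5 : |‖η‖ ^ 2 * v.1| ≤ 9 * ‖v‖ := by
    rw [abs_mul, abs_of_nonneg (sq_nonneg _)]
    have h6 : ‖η‖ ^ 2 ≤ 9 := by nlinarith [norm_nonneg η]
    exact mul_le_mul h6 h1 (abs_nonneg _) (by norm_num)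
  have h6 := abs_le.1 h4
  have h7 := abs_le.1 h5
  have h8 := abs_le.1 h3
  unfold lp
  rw [abs_le]
  constructor <;> linarith

theorem lp_sum (η : E m) (a : Fin j → ℝ) (f : Fin j → Z m) :
    lp η (∑ i, a i • f i) = ∑ i, a i * lp η (f i) := by
  have h0 : lp η (0 : Z m) = 0 := by
    have := lp_smul η 0 0
    rwa [zero_smul, zero_mul] at this
  have hs : ∀ s : Finset (Fin j), lp η (∑ i ∈ s, a i • f i) = ∑ i ∈ s, a i * lp η (f i) := by
    intro s
    induction s using Finset.induction_on with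
    | empty => simp [h0]
    | insert i s hi ih => rw [Finset.sum_insert hi, Finset.sum_insert hi, lp_add, lp_smul, ih]
  exact hs _

end

/-- a lower bound of the determinant of the squared distances gives independence -/
theorem ind_of_det (m j : ℕ) (th : ℝ) (hth : 0 < th) : ∃ c : ℝ, 0 < c ∧ ∀ η : Fin j → E m,
    (∀ i, ‖η i‖ ≤ 3) → th ≤ |(Dm η).det| → Ind c η := by
  classical
  obtain ⟨B, hB⟩ : ∃ B : ℝ, B = (j.factorial : ℝ) * 36 ^ j := ⟨_, rfl⟩
  have hB0 : 0 < B := by
    rw [hB]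
    have : (0 : ℝ) < j.factorial := by exact_mod_cast Nat.factorial_pos j
    positivity
  obtain ⟨Γ, hΓ⟩ : ∃ Γ : ℝ, Γ = (j : ℝ) * ((j : ℝ) * (B * 16)) + 1 := ⟨_, rfl⟩
  have hΓ0 : 0 < Γ := by rw [hΓ]; positivity
  refine ⟨th / Γ, by positivity, fun η hη hd a => ?_⟩
  obtain ⟨v, hv⟩ : ∃ v : Z m, v = ∑ i, a i • nv (η i) := ⟨_, rfl⟩
  rw [← hv]
  have hGa : ∀ i, (Matrix.mulVec (Dm η) a) i = lp (η i) v := by
    intro i
    rw [hv, lp_sum, Matrix.mulVec, dotProduct]
    refine Finset.sum_congr rfl fun i' _ => ?_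
    rw [lp_nv, mul_comm]
    rfl
  have hGb : ∀ i, |(Matrix.mulVec (Dm η) a) i| ≤ 16 * ‖v‖ := fun i => by
    rw [hGa]
    exact lp_le (hη i) v
  have hadj : ∀ i i', |(Dm η).adjugate i i'| ≤ B := by
    intro i i'
    rw [Matrix.adjugate_apply]
    have h := Matrix.det_le (abv := AbsoluteValue.abs) (x := (36 : ℝ))
      (A := (Dm η).updateRow i' (Pi.single i 1)) (by
        intro r s
        by_cases hr : r = i'
        · rw [hr, Matrix.updateRow_self]
          by_cases hs : s = i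
          · rw [hs, Pi.single_eq_same]
            norm_num
          · rw [Pi.single_eq_of_ne hs]
            norm_num
        · rw [Matrix.updateRow_ne hr]
          change |‖η r - η s‖ ^ 2| ≤ 36
          rw [abs_of_nonneg (sq_nonneg _)]
          have h1 : ‖η r - η s‖ ≤ 6 := (norm_sub_le _ _).trans (by linarith [hη r, hη s])
          nlinarith [norm_nonneg (η r - η s)])
    rw [Fintype.card_fin, nsmul_eq_mul] at h
    rw [hB]
    exact h
  have hai : ∀ i, |a i| * th ≤ (j : ℝ) * (B * 16) * ‖v‖ := by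
    intro i
    have e : (Dm η).det * a i = ∑ i', (Dm η).adjugate i i' * (Matrix.mulVec (Dm η) a) i' := by
      have h1 : Matrix.mulVec ((Dm η).adjugate) (Matrix.mulVec (Dm η) a) =
          (Dm η).det • a := by
        rw [Matrix.mulVec_mulVec, Matrix.adjugate_mul, Matrix.smul_mulVec, Matrix.one_mulVec]
      have h2 := congrFun h1 i
      rw [Pi.smul_apply, smul_eq_mul] at h2
      rw [← h2]
      rfl
    calc |a i| * th ≤ |a i| * |(Dm η).det| := mul_le_mul_of_nonneg_left hd (abs_nonneg _)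
      _ = |(Dm η).det * a i| := by rw [abs_mul, mul_comm]
      _ = |∑ i', (Dm η).adjugate i i' * (Matrix.mulVec (Dm η) a) i'| := by rw [e]
      _ ≤ ∑ i', |(Dm η).adjugate i i' * (Matrix.mulVec (Dm η) a) i'| :=
          Finset.abs_sum_le_sum_abs _ _
      _ ≤ ∑ _i' : Fin j, B * (16 * ‖v‖) := by
          refine Finset.sum_le_sum fun i' _ => ?_
          rw [abs_mul]
          exact mul_le_mul (hadj i i') (hGb i') (abs_nonneg _) hB0.le
      _ = (j : ℝ) * (B * 16) * ‖v‖ := by
          rw [Finset.sum_const, Finset.card_univ, Fintype.card_fin, nsmul_eq_mul]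
          ring
  have hsum : (∑ i, |a i|) * th ≤ Γ * ‖v‖ := by
    rw [Finset.sum_mul]
    calc ∑ i, |a i| * th ≤ ∑ _i : Fin j, (j : ℝ) * (B * 16) * ‖v‖ :=
          Finset.sum_le_sum fun i _ => hai i
      _ = (j : ℝ) * ((j : ℝ) * (B * 16)) * ‖v‖ := by
          rw [Finset.sum_const, Finset.card_univ, Fintype.card_fin, nsmul_eq_mul]
          ring
      _ ≤ Γ * ‖v‖ := by
          refine mul_le_mul_of_nonneg_right ?_ (norm_nonneg _)
          rw [hΓ]
          linarith
  rw [div_mul_eq_mul_div, div_le_iff₀ hΓ0, mul_comm th, mul_comm ‖v‖]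
  exact hsum

end Pool.Agent.H22.G4
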