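import Mathlib

/-! G4: selection of coordinates for `j` independent functionals. -/

set_option autoImplicit false

namespace Pool.Agent.H22.G4

open Matrix

theorem ex_minor {j : ℕ} {ι : Type} [Fintype ι] [DecidableEq ι] (A : Matrix (Fin j) ι ℝ)
    (h : ∀ a : Fin j → ℝ, a ᵥ* A = 0 → a = 0) :
    ∃ f : Fin j → ι, (A.submatrix id f).det ≠ 0 := by
  have hli : LinearIndependent ℝ A.row := by
    rw [← Matrix.vecMul_injective_iff]
    intro a b hab
    have h1 := h (a - b) (by
      rw [Matrix.sub_vecMul]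
      exact sub_eq_zero.2 hab)
    exact sub_eq_zero.1 h1
  have hr := hli.rank_matrix
  rw [Matrix.rank_eq_finrank_span_cols, Fintype.card_fin] at hr
  obtain ⟨g, hg, -, hgi⟩ := Submodule.exists_fun_fin_finrank_span_eq ℝ (Set.range A.col)
  choose f0 hf0 using hg
  refine ⟨fun i => f0 (Fin.cast hr.symm i), ?_⟩
  have hli2 : LinearIndependent ℝ
      (A.submatrix id fun i => f0 (Fin.cast hr.symm i)).col := by
    have e : (A.submatrix id fun i => f0 (Fin.cast hr.symm i)).col =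
        g ∘ Fin.cast hr.symm := by
      funext i
      exact hf0 _
    rw [e]
    exact hgi.comp _ (Fin.cast_injective _)
  have hu := Matrix.linearIndependent_cols_iff_isUnit.1 hli2
  exact ((Matrix.isUnit_iff_isUnit_det _).1 hu).ne_zero

theorem sel {j : ℕ} {ι : Type} [Fintype ι] [DecidableEq ι] (A : Matrix (Fin j) ι ℝ)
    (c : ℝ) (hc : 0 < c) (h : ∀ a : Fin j → ℝ, c * ∑ i, |a i| ≤ ∑ k, |(a ᵥ* A) k|) :
    ∃ f : Fin j → ι, Function.Injective f ∧ ∀ (z : ι → ℝ) (ρ : ℝ), 0 ≤ ρ →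
      (∀ i, |(A *ᵥ z) i| ≤ ρ) → (∀ k, (∀ i, f i ≠ k) → |z k| ≤ ρ) →
      ∀ k, |z k| ≤ (Fintype.card ι / c + Fintype.card ι + 1) * ρ := by
  obtain ⟨f0, hf0⟩ := ex_minor A (by
    intro a ha
    have h1 := h a
    rw [ha] at h1
    simp only [Pi.zero_apply, abs_zero, Finset.sum_const_zero] at h1
    have h2 : ∑ i, |a i| ≤ 0 := by
      by_contra h3
      rw [not_le] at h3
      nlinarith
    have h3 := (Finset.sum_eq_zero_iff_of_nonneg fun i _ => abs_nonneg (a i)).1
      (le_antisymm h2 (Finset.sum_nonneg fun i _ => abs_nonneg _))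
    funext i
    exact abs_eq_zero.1 (h3 i (Finset.mem_univ _)))
  have : Nonempty (Fin j → ι) := ⟨f0⟩
  obtain ⟨f, hf⟩ := Finite.exists_max fun f : Fin j → ι => |(A.submatrix id f).det|
  obtain ⟨M, hM⟩ : ∃ M : Matrix (Fin j) (Fin j) ℝ, M = A.submatrix id f := ⟨_, rfl⟩
  have hd : M.det ≠ 0 := by
    rw [hM]
    have h1 := hf f0
    have h2 := abs_pos.2 hf0
    exact abs_pos.1 (lt_of_lt_of_le h2 h1)
  have hfi : Function.Injective f := by
    intro i i' hii
    by_contra hne
    refine hd (Matrix.det_zero_of_column_eq hne fun k => ?_)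
    rw [hM]
    simp only [Matrix.submatrix_apply, id]
    rw [hii]
  obtain ⟨w, hw⟩ : ∃ w : ι → Fin j → ℝ, ∀ k, w k = M.det⁻¹ • cramer M (fun i => A i k) :=
    ⟨fun k => M.det⁻¹ • cramer M (fun i => A i k), fun k => rfl⟩
  have hw1 : ∀ k i, |w k i| ≤ 1 := by
    intro k i
    rw [hw, Pi.smul_apply, smul_eq_mul, Matrix.cramer_apply, abs_mul, abs_inv,
      inv_mul_le_iff₀ (abs_pos.2 hd), mul_one]
    have e : M.updateCol i (fun i' => A i' k) = A.submatrix id (Function.update f i k) := by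
      rw [hM]
      ext i1 i2
      rw [Matrix.submatrix_apply, id]
      by_cases h1 : i2 = i
      · rw [h1, Matrix.updateCol_self, Function.update_self]
      · rw [Matrix.updateCol_ne h1, Function.update_of_ne h1, Matrix.submatrix_apply, id]
    rw [e, hM]
    exact hf _
  have hMw : ∀ k, M *ᵥ w k = fun i => A i k := by
    intro k
    rw [hw, Matrix.mulVec_smul, Matrix.mulVec_cramer, smul_smul, inv_mul_cancel₀ hd, one_smul]
  have hwf : ∀ i, w (f i) = Pi.single i 1 := by
    intro i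
    rw [hw, Matrix.cramer_row_self M _ i (fun i' => by rw [hM]; rfl)]
    ext i'
    rw [Pi.smul_apply, smul_eq_mul]
    by_cases h1 : i' = i
    · rw [h1, Pi.single_eq_same, Pi.single_eq_same, inv_mul_cancel₀ hd]
    · rw [Pi.single_eq_of_ne h1, Pi.single_eq_of_ne h1, mul_zero]
  have hn : (0 : ℝ) ≤ Fintype.card ι := Nat.cast_nonneg _
  refine ⟨f, hfi, fun z ρ hρ hA hz => ?_⟩
  obtain ⟨y, hy⟩ : ∃ y : Fin j → ℝ, y = ∑ k, z k • w k := ⟨_, rfl⟩
  have hMy : M *ᵥ y = A *ᵥ z := by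
    rw [hy, Matrix.mulVec_sum]
    ext i
    rw [Finset.sum_apply]
    simp only [Matrix.mulVec_smul, hMw, Pi.smul_apply, smul_eq_mul]
    rw [Matrix.mulVec, dotProduct]
    exact Finset.sum_congr rfl fun k _ => mul_comm _ _
  have hMu : IsUnit M.det := isUnit_iff_ne_zero.2 hd
  have hyb : ∀ i, |y i| ≤ Fintype.card ι / c * ρ := by
    intro i
    obtain ⟨a, ha⟩ : ∃ a : Fin j → ℝ, a = Pi.single i 1 ᵥ* M⁻¹ := ⟨_, rfl⟩
    have haM : a ᵥ* M = Pi.single i 1 := by
      rw [ha, Matrix.vecMul_vecMul, Matrix.nonsing_inv_mul M hMu, Matrix.vecMul_one]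
    have h1 := h a
    have h2 : ∀ k, |(a ᵥ* A) k| ≤ 1 := by
      intro k
      have e : (a ᵥ* A) k = w k i := by
        have e1 : (a ᵥ* A) k = a ⬝ᵥ (M *ᵥ w k) := by
          rw [hMw]
          rfl
        rw [e1, Matrix.dotProduct_mulVec, haM, single_dotProduct, one_mul]
      rw [e]
      exact hw1 k i
    have h3 : ∑ k, |(a ᵥ* A) k| ≤ Fintype.card ι := by
      calc ∑ k, |(a ᵥ* A) k| ≤ ∑ _k : ι, (1 : ℝ) := Finset.sum_le_sum fun k _ => h2 k
        _ = Fintype.card ι := by simp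
    have h4 : ∑ i, |a i| ≤ Fintype.card ι / c := by
      rw [le_div_iff₀ hc, mul_comm]
      exact h1.trans h3
    have e : y i = a ⬝ᵥ (A *ᵥ z) := by
      rw [← hMy, Matrix.dotProduct_mulVec, haM, single_dotProduct, one_mul]
    rw [e, dotProduct]
    calc |∑ i, a i * (A *ᵥ z) i| ≤ ∑ i, |a i * (A *ᵥ z) i| := Finset.abs_sum_le_sum_abs _ _
      _ ≤ ∑ i, |a i| * ρ := Finset.sum_le_sum fun i _ => by
          rw [abs_mul]
          exact mul_le_mul_of_nonneg_left (hA i) (abs_nonneg _)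
      _ = (∑ i, |a i|) * ρ := by rw [Finset.sum_mul]
      _ ≤ _ := mul_le_mul_of_nonneg_right h4 hρ
  intro k
  by_cases hk : ∃ i, f i = k
  · obtain ⟨i, rfl⟩ := hk
    have e1 : y i = ∑ k ∈ Finset.univ.image f, z k * w k i +
        ∑ k ∈ (Finset.univ.image f)ᶜ, z k * w k i := by
      rw [Finset.sum_add_sum_compl, hy, Finset.sum_apply]
      rfl
    have e2 : ∑ k ∈ Finset.univ.image f, z k * w k i = z (f i) := by
      rw [Finset.sum_image fun x _ y _ hxy => hfi hxy]
      simp only [hwf]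
      rw [Finset.sum_eq_single i]
      · rw [Pi.single_eq_same, mul_one]
      · intro b _ hb
        rw [Pi.single_eq_of_ne (Ne.symm hb), mul_zero]
      · intro h
        exact absurd (Finset.mem_univ _) h
    have h3 : |∑ k ∈ (Finset.univ.image f)ᶜ, z k * w k i| ≤ Fintype.card ι * ρ := by
      calc |∑ k ∈ (Finset.univ.image f)ᶜ, z k * w k i|
          ≤ ∑ k ∈ (Finset.univ.image f)ᶜ, |z k * w k i| := Finset.abs_sum_le_sum_abs _ _
        _ ≤ ∑ _k ∈ (Finset.univ.image f)ᶜ, ρ := by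
            refine Finset.sum_le_sum fun k hk => ?_
            rw [abs_mul]
            have h4 : |z k| ≤ ρ := hz k fun i hi => by
              rw [Finset.mem_compl] at hk
              exact hk (Finset.mem_image.2 ⟨i, Finset.mem_univ _, hi⟩)
            calc |z k| * |w k i| ≤ ρ * 1 := mul_le_mul h4 (hw1 k i) (abs_nonneg _) hρ
              _ = ρ := mul_one _
        _ = ((Finset.univ.image f)ᶜ.card : ℝ) * ρ := by
            rw [Finset.sum_const, nsmul_eq_mul]
        _ ≤ Fintype.card ι * ρ := by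
            refine mul_le_mul_of_nonneg_right ?_ hρ
            exact_mod_cast Finset.card_le_univ _
    have h4 : z (f i) = y i - ∑ k ∈ (Finset.univ.image f)ᶜ, z k * w k i := by
      rw [e1, e2]
      ring
    rw [h4]
    calc |y i - ∑ k ∈ (Finset.univ.image f)ᶜ, z k * w k i|
        ≤ |y i| + |∑ k ∈ (Finset.univ.image f)ᶜ, z k * w k i| := abs_sub _ _
      _ ≤ Fintype.card ι / c * ρ + Fintype.card ι * ρ := add_le_add (hyb i) h3
      _ ≤ _ := by nlinarith
  · have h1 : |z k| ≤ ρ := hz k fun i hi => hk ⟨i, hi⟩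
    have h2 : 0 ≤ Fintype.card ι / c := by positivity
    nlinarith [mul_nonneg h2 hρ, mul_nonneg hn hρ]

end Pool.Agent.H22.G4
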