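import Pool.Agent.H22.G4.TargetsJ
import Pool.Agent.H22.G4.Minor
import Pool.Agent.H22.G.LW

/-! G4: `j` transversal families of planks in a cube (LWJ); IN1, IN2. -/

set_option autoImplicit false

namespace Pool.Agent.H22.G4

open Pool.Agent.H83.G
open Pool.Agent.H22.G
open scoped RealInnerProductSpace

section

variable {m j : ℕ}

theorem nv_sub_le {B r : ℝ} (hB : 0 ≤ B) (hr : 0 ≤ r) {η η' : E m} (h : ‖η‖ ≤ B)
    (h' : ‖η'‖ ≤ B) (hd : ‖η - η'‖ ≤ r) : ‖nv η - nv η'‖ ≤ (2 * B + 1) * r := by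
  have e : nv η - nv η' = ((0 : ℝ), η - η', ‖η‖ ^ 2 - ‖η'‖ ^ 2) := by
    unfold nv
    rw [Prod.mk_sub_mk, Prod.mk_sub_mk, sub_self]
  have h1 : |‖η‖ - ‖η'‖| ≤ r := (abs_norm_sub_norm_le η η').trans hd
  have h2 : |‖η‖ ^ 2 - ‖η'‖ ^ 2| ≤ 2 * B * r := by
    have e2 : ‖η‖ ^ 2 - ‖η'‖ ^ 2 = (‖η‖ + ‖η'‖) * (‖η‖ - ‖η'‖) := by ring
    rw [e2, abs_mul]
    have h3 : |‖η‖ + ‖η'‖| ≤ 2 * B := by
      rw [abs_of_nonneg (by positivity)]
      linarith
    exact mul_le_mul h3 h1 (abs_nonneg _) (by positivity)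
  rw [e, Prod.norm_def, Prod.norm_def, norm_zero]
  have h4 : 0 ≤ B * r := mul_nonneg hB hr
  refine max_le (by positivity) (max_le (by linarith [hd]) ?_)
  rw [Real.norm_eq_abs]
  linarith

theorem pf_IN1 : T_IN1 := by
  intro m j c B r η η' hB hr h h' hd hI a
  have h1 := hI a
  have h2 : ‖∑ i, a i • nv (η i)‖ ≤ ‖∑ i, a i • nv (η' i)‖ +
      (2 * B + 1) * r * ∑ i, |a i| := by
    have e : ∑ i, a i • nv (η i) = ∑ i, a i • nv (η' i) +
        ∑ i, a i • (nv (η i) - nv (η' i)) := by
      rw [← Finset.sum_add_distrib]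
      refine Finset.sum_congr rfl fun i _ => ?_
      rw [smul_sub]
      abel
    rw [e]
    refine (norm_add_le _ _).trans (by
      gcongr
      refine (norm_sum_le _ _).trans ?_
      rw [Finset.mul_sum]
      refine Finset.sum_le_sum fun i _ => ?_
      rw [norm_smul, Real.norm_eq_abs, mul_comm]
      exact mul_le_mul_of_nonneg_right (nv_sub_le hB hr (h i) (h' i) (hd i)) (abs_nonneg _))
  have e : (c - (2 * B + 1) * r) * ∑ i, |a i| =
      c * ∑ i, |a i| - (2 * B + 1) * r * ∑ i, |a i| := by ring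
  rw [e]
  linarith

theorem pf_IN2 : T_IN2 := by
  intro m j c B η hB h hI i i' hii
  obtain ⟨r, hr⟩ : ∃ r : ℝ, r = ‖η i - η i'‖ := ⟨_, rfl⟩
  have hr0 : 0 ≤ r := by rw [hr]; positivity
  have h1 := hI (Pi.single i 1 - Pi.single i' 1)
  have h2 : ∑ k, |(Pi.single i 1 - Pi.single i' 1 : Fin j → ℝ) k| = 2 := by
    have e : ∀ k, |(Pi.single i 1 - Pi.single i' 1 : Fin j → ℝ) k| =
        (Pi.single i 1 : Fin j → ℝ) k + (Pi.single i' 1 : Fin j → ℝ) k := by
      intro k
      rw [Pi.sub_apply]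
      by_cases h3 : k = i
      · rw [h3, Pi.single_eq_same, Pi.single_eq_of_ne hii]
        norm_num
      · rw [Pi.single_eq_of_ne h3]
        by_cases h4 : k = i'
        · rw [h4, Pi.single_eq_same]
          norm_num
        · rw [Pi.single_eq_of_ne h4]
          norm_num
    simp only [e]
    rw [Finset.sum_add_distrib, Finset.sum_pi_single', Finset.sum_pi_single']
    norm_num
  have h3 : ∑ k, (Pi.single i 1 - Pi.single i' 1 : Fin j → ℝ) k • nv (η k) =
      nv (η i) - nv (η i') := by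
    simp only [Pi.sub_apply, sub_smul]
    rw [Finset.sum_sub_distrib, Finset.sum_eq_single i, Finset.sum_eq_single i']
    · rw [Pi.single_eq_same, Pi.single_eq_same, one_smul, one_smul]
    · intro b _ hb
      rw [Pi.single_eq_of_ne hb, zero_smul]
    · intro h
      exact absurd (Finset.mem_univ _) h
    · intro b _ hb
      rw [Pi.single_eq_of_ne hb, zero_smul]
    · intro h
      exact absurd (Finset.mem_univ _) h
  rw [h2, h3] at h1
  have h4 := nv_sub_le hB hr0 (h i) (h i') hr.ge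
  rw [← hr, div_le_iff₀ (by linarith)]
  nlinarith

/-- all coordinates -/
noncomputable def co (z : Z m) (k : Option (Option (Fin m))) : ℝ := k.elim z.1 (cf z)

theorem co_sub (z z' : Z m) (k : Option (Option (Fin m))) :
    co (z - z') k = co z k - co z' k := by
  cases k with
  | none => rfl
  | some s => exact cf_sub z z' s

theorem co_le (z : Z m) (k : Option (Option (Fin m))) : |co z k| ≤ ‖z‖ := by
  cases k with
  | none => exact n1 z
  | some s => exact cf_le z s

/-- the matrix of the functionals -/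
noncomputable def mat (η : Fin j → E m) : Matrix (Fin j) (Option (Option (Fin m))) ℝ :=
  Matrix.of fun i k => co (nv (η i)) k

theorem co_nv (η : E m) (s : Option (Fin m)) : co (nv η) (some s) = cv η s := by
  cases s <;> rfl

theorem mat_mulVec (η : Fin j → E m) (z : Z m) (i : Fin j) :
    (Matrix.mulVec (mat η) (co z)) i = L1 (η i) z := by
  rw [L1_sum, Matrix.mulVec, dotProduct, Fintype.sum_option]
  refine congrArg₂ (· + ·) ?_ ?_
  · change (1 : ℝ) * z.1 = z.1
    rw [one_mul]
  · refine Finset.sum_congr rfl fun s _ => ?_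
    change co (nv (η i)) (some s) * cf z s = _
    rw [co_nv]

theorem norm_le_sum (z : Z m) : ‖z‖ ≤ ∑ k, |co z k| := by
  have h : ∀ k, |co z k| ≤ ∑ k, |co z k| := fun k =>
    Finset.single_le_sum (f := fun k => |co z k|) (fun _ _ => abs_nonneg _) (Finset.mem_univ k)
  rw [Prod.norm_def, Prod.norm_def]
  refine max_le (h none) (max_le ?_ (h (some none)))
  have h1 : ‖z.2.1‖ ≤ ∑ i, |z.2.1 i| := by
    have e : z.2.1 = ∑ i, EuclideanSpace.single i (z.2.1 i) := by
      ext i
      simp
    calc ‖z.2.1‖ = ‖∑ i, EuclideanSpace.single i (z.2.1 i)‖ := by rw [← e]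
      _ ≤ ∑ i, ‖(EuclideanSpace.single i (z.2.1 i) : E m)‖ := norm_sum_le _ _
      _ = ∑ i, |z.2.1 i| := by
        refine Finset.sum_congr rfl fun i _ => ?_
        rw [PiLp.norm_single, Real.norm_eq_abs]
  refine h1.trans ?_
  rw [Fintype.sum_option, Fintype.sum_option]
  have h2 : 0 ≤ |co z none| := abs_nonneg _
  have h3 : 0 ≤ |co z (some none)| := abs_nonneg _
  have h4 : ∑ i, |z.2.1 i| = ∑ i : Fin m, |co z (some (some i))| := rfl
  linarith

theorem co_sum (a : Fin j → ℝ) (η : Fin j → E m) (k : Option (Option (Fin m))) :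
    co (∑ i, a i • nv (η i)) k = Matrix.vecMul a (mat η) k := by
  have hadd : ∀ x y : Z m, co (x + y) k = co x k + co y k := by
    intro x y
    cases k with
    | none => rfl
    | some s => cases s <;> rfl
  have hsm : ∀ (c : ℝ) (x : Z m), co (c • x) k = c * co x k := by
    intro c x
    cases k with
    | none => rfl
    | some s => cases s <;> rfl
  have h0 : co (0 : Z m) k = 0 := by
    have := hsm 0 0
    rwa [zero_smul, zero_mul] at this
  have hs : ∀ s : Finset (Fin j), co (∑ i ∈ s, a i • nv (η i)) k =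
      ∑ i ∈ s, a i * co (nv (η i)) k := by
    intro s
    induction s using Finset.induction_on with
    | empty => simp [h0]
    | insert i s hi ih => rw [Finset.sum_insert hi, Finset.sum_insert hi, hadd, hsm, ih]
  rw [hs]
  rfl

/-- the points near `j` transversal planks -/
theorem lwj_count (m j : ℕ) (c : ℝ) (hc : 0 < c) : ∃ C : ℝ, 1 ≤ C ∧
    ∀ (ρ D : ℝ) (η : Fin j → E m) (X : Finset (Z m)) (p : Z m), 1 ≤ ρ → 1 ≤ D → Ind c η →
    Sep X → (∀ z ∈ X, ‖z - p‖ ≤ D) →
    (∀ z ∈ X, ∀ z' ∈ X, ∀ i, |L1 (η i) (z - z')| ≤ 2 * ρ) →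
    (X.card : ℝ) ≤ C * ρ ^ j * D ^ (m + 2 - j) := by
  classical
  have hm0 : (0 : ℝ) < (m : ℝ) + 1 := by positivity
  have hm1 : (1 : ℝ) ≤ (m : ℝ) + 1 := by
    have : (0 : ℝ) ≤ m := Nat.cast_nonneg m
    linarith
  obtain ⟨Γ, hΓ⟩ : ∃ Γ : ℝ, Γ = ((Fintype.card (Option (Option (Fin m))) : ℝ) / c +
    (Fintype.card (Option (Option (Fin m))) : ℝ) + 1) * 2 := ⟨_, rfl⟩
  have hΓ1 : 1 ≤ Γ := by
    rw [hΓ]
    have h1 : (0 : ℝ) ≤ (Fintype.card (Option (Option (Fin m))) : ℝ) / c := by positivity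
    have h2 : (0 : ℝ) ≤ (Fintype.card (Option (Option (Fin m))) : ℝ) := by positivity
    linarith
  refine ⟨(5 * (((m : ℝ) + 1) * Γ)) ^ j * (5 * ((m : ℝ) + 1)) ^ (m + 2 - j), ?_, ?_⟩
  · have h1 : 1 ≤ (5 * (((m : ℝ) + 1) * Γ)) ^ j := one_le_pow₀ (by nlinarith)
    have h2 : 1 ≤ (5 * ((m : ℝ) + 1)) ^ (m + 2 - j) := one_le_pow₀ (by nlinarith)
    nlinarith
  intro ρ D η X p hρ hD hI hX hp hd
  obtain ⟨f, hf, hsel⟩ := sel (mat η) c hc (by
    intro a
    refine (hI a).trans ((norm_le_sum _).trans (le_of_eq ?_))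
    exact Finset.sum_congr rfl fun k _ => by rw [co_sum])
  have hr1 : 1 ≤ Γ * ρ := by nlinarith
  have key : (X.card : ℝ) ≤ (5 * (((m : ℝ) + 1) * (Γ * ρ))) ^ j *
      (5 * (((m : ℝ) + 1) * D)) ^ (m + 2 - j) := by
    refine card_fib X
      (fun z => fun u : {u : Option (Option (Fin m)) // ∀ i, f i ≠ u} => fl (co z u.1) m)
      _ _ (by positivity) (fun b hb => ?_) ?_
    · obtain ⟨z1, hz1, rfl⟩ := Finset.mem_image.1 hb
      obtain ⟨F, hF⟩ : ∃ F : Finset (Z m), F = X.filter fun z =>
          (fun u : {u : Option (Option (Fin m)) // ∀ i, f i ≠ u} => fl (co z u.1) m) =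
            fun u => fl (co z1 u.1) m := ⟨_, rfl⟩
      have hFX : ∀ z ∈ F, z ∈ X ∧ ∀ u, (∀ i, f i ≠ u) → fl (co z u) m = fl (co z1 u) m := by
        intro z hz
        rw [hF] at hz
        obtain ⟨hz1, hz2⟩ := Finset.mem_filter.1 hz
        exact ⟨hz1, fun u hu => congrFun hz2 ⟨u, hu⟩⟩
      have hsm : ∀ z ∈ F, ∀ k, |co z k - co z1 k| ≤ Γ * ρ := by
        intro z hz k
        obtain ⟨hzX, hzf⟩ := hFX z hz
        have h := hsel (co (z - z1)) (2 * ρ) (by linarith) (fun i => by
          rw [mat_mulVec]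
          exact hd z hzX z1 hz1 i) (fun u hu => by
            rw [co_sub]
            have h1 := (fl_diff (hzf u hu)).le
            have h2 : 1 / ((m : ℝ) + 1) ≤ 1 := by
              rw [div_le_one hm0]
              exact hm1
            linarith) k
        rw [co_sub] at h
        refine h.trans (le_of_eq ?_)
        rw [hΓ]
        ring
      have hinj : Set.InjOn (fun z : Z m => fun i : Fin j => fl (co z (f i)) m)
          (F : Set (Z m)) := by
        intro z hz z' hz' he
        have hz := hFX z hz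
        have hz' := hFX z' hz'
        by_contra hne
        have hsep := hX z hz.1 z' hz'.1 hne
        have hall : ∀ k, |co (z - z') k| < 1 / ((m : ℝ) + 1) := by
          intro k
          rw [co_sub]
          by_cases hk : ∃ i, f i = k
          · obtain ⟨i, rfl⟩ := hk
            exact fl_diff (congrFun he i)
          · have hk' : ∀ i, f i ≠ k := fun i hi => hk ⟨i, hi⟩
            exact fl_diff ((hz.2 k hk').trans (hz'.2 k hk').symm)
        have hlt : ‖z - z'‖ < 1 := norm_lt_of_coord (hall none) fun u => hall (some u)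
        linarith
      rw [← hF]
      have hc := cnt_fun (F.image fun z : Z m => fun i : Fin j => fl (co z (f i)) m)
        (fun i => ((m : ℝ) + 1) * co z1 (f i)) (((m : ℝ) + 1) * (Γ * ρ) + 1) (by positivity)
        (by
          intro l hl i
          obtain ⟨z, hz, rfl⟩ := Finset.mem_image.1 hl
          exact fl_near (hsm z hz (f i)))
      rw [Finset.card_image_of_injOn hinj, Fintype.card_fin] at hc
      refine hc.trans (pow_le_pow_left₀ (by positivity) ?_ j)
      have : 1 ≤ ((m : ℝ) + 1) * (Γ * ρ) := by nlinarith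
      linarith
    · have hcard : Fintype.card {u : Option (Option (Fin m)) // ∀ i, f i ≠ u} = m + 2 - j := by
        have e1 : Fintype.card {u : Option (Option (Fin m)) // ∀ i, f i ≠ u} =
            ((Finset.univ : Finset (Option (Option (Fin m)))) \
              (Finset.univ.image f)).card := by
          rw [Fintype.card_subtype]
          congr 1
          ext u
          simp
        rw [e1, Finset.card_sdiff_of_subset (Finset.subset_univ _),
          Finset.card_image_of_injective _ hf, Finset.card_univ, Finset.card_univ,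
          Fintype.card_option, Fintype.card_option, Fintype.card_fin, Fintype.card_fin]
      have h6 := cnt_fun (X.image fun z => fun u : {u : Option (Option (Fin m)) //
        ∀ i, f i ≠ u} => fl (co z u.1) m) (fun u => ((m : ℝ) + 1) * co p u.1)
        (((m : ℝ) + 1) * D + 1) (by positivity) (by
          intro k hk u
          obtain ⟨z, hz, rfl⟩ := Finset.mem_image.1 hk
          refine fl_near ?_
          rw [← co_sub]
          exact (co_le _ _).trans (hp z hz))
      rw [hcard] at h6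
      refine h6.trans (pow_le_pow_left₀ (by positivity) ?_ _)
      have : 1 ≤ ((m : ℝ) + 1) * D := by nlinarith
      linarith
  refine key.trans (le_of_eq ?_)
  have e4 : 5 * (((m : ℝ) + 1) * (Γ * ρ)) = (5 * (((m : ℝ) + 1) * Γ)) * ρ := by ring
  have e5 : 5 * (((m : ℝ) + 1) * D) = (5 * ((m : ℝ) + 1)) * D := by ring
  rw [e4, e5, mul_pow _ ρ, mul_pow _ D]
  ring

end

theorem pf_LWJ : T_LWJ := by
  classical
  intro m j c hj hc
  obtain ⟨C₀, hC₀, hcount⟩ := lwj_count m j c hc
  obtain ⟨C, hC⟩ : ∃ C : ℝ, C = C₀ * ((m : ℝ) + 1) ^ (m + 2 - j) := ⟨_, rfl⟩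
  have hm1 : (1 : ℝ) ≤ (m : ℝ) + 1 := by
    have : (0 : ℝ) ≤ m := Nat.cast_nonneg m
    linarith
  have hC1 : 1 ≤ C := by
    rw [hC]
    have h1 : 1 ≤ ((m : ℝ) + 1) ^ (m + 2 - j) := one_le_pow₀ hm1
    nlinarith
  refine ⟨C, hC1, ?_⟩
  intro R δ p X S M₁ hR hδ hX hp hS3 hI hM hMz
  have hR0 : 0 < R := by linarith
  have main := dbl (Fintype.piFinset S) X (fun W z => ∀ i, near R δ (W i) z)
    (∏ i, M₁ i) (C * R ^ (((m : ℝ) + 2 - j) / 2 + 2 * j * δ)) (fun z hz => ?_) (fun W hW => ?_)
  · rw [Fintype.card_piFinset] at main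
    push_cast at main
    exact main
  · have h1 : (Fintype.piFinset S).filter (fun W => ∀ i, near R δ (W i) z) =
        Fintype.piFinset fun i => (S i).filter fun W => near R δ W z := by
      ext W
      simp only [Finset.mem_filter, Fintype.mem_piFinset]
      exact forall_and.symm
    rw [h1, Fintype.card_piFinset]
    push_cast
    exact Finset.prod_le_prod (fun i _ => hM i) fun i _ => hMz z hz i
  · rw [Fintype.mem_piFinset] at hW
    have hρ : 1 ≤ R ^ (2 * δ) := Real.one_le_rpow hR (by linarith)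
    have hD1 : 1 ≤ R ^ (1 / 2 : ℝ) := Real.one_le_rpow hR (by norm_num)
    have hD : 1 ≤ ((m : ℝ) + 1) * R ^ (1 / 2 : ℝ) := by nlinarith
    have h := hcount (R ^ (2 * δ)) (((m : ℝ) + 1) * R ^ (1 / 2 : ℝ))
      (fun i => ctr (sR R) (W i).1) (X.filter fun z => ∀ i, near R δ (W i) z) p hρ hD
      (hI W hW) (by
        intro z hz z' hz' hne
        exact hX z (Finset.mem_filter.1 hz).1 z' (Finset.mem_filter.1 hz').1 hne)
      (fun z hz => hp z (Finset.mem_filter.1 hz).1) (by
        intro z hz z' hz' i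
        have h1 := abs_le.1 (near_bounds hR ((Finset.mem_filter.1 hz).2 i)).1
        have h2 := abs_le.1 (near_bounds hR ((Finset.mem_filter.1 hz').2 i)).1
        rw [L1_sub, abs_le]
        constructor <;> linarith)
    refine h.trans (le_of_eq ?_)
    have e1 : (R ^ (2 * δ)) ^ j = R ^ (2 * j * δ) := by
      rw [← Real.rpow_natCast, ← Real.rpow_mul hR0.le]
      ring_nf
    have e2 : (R ^ (1 / 2 : ℝ)) ^ (m + 2 - j) = R ^ (((m : ℝ) + 2 - j) / 2) := by
      rw [← Real.rpow_natCast, ← Real.rpow_mul hR0.le, Nat.cast_sub hj]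
      push_cast
      ring_nf
    rw [mul_pow, e1, e2, Real.rpow_add hR0, hC]
    ring

end Pool.Agent.H22.G4
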