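import Pool.Agent.H22.G4.Targets

/-! NARx: the narrow part, general exponent (after `Pool.Agent.H69.G.NAR`). -/

set_option autoImplicit false

namespace Pool.Agent.H22.G4.NAR

open MeasureTheory Set Pool.Agent.H83.G Pool.Agent.H22.G4 Metric
open scoped ENNReal NNReal RealInnerProductSpace

private instance haarY {m : ℕ} : (volume : Measure (E m × ℝ)).IsAddHaarMeasure :=
  inferInstanceAs ((volume : Measure (E m)).prod (volume : Measure ℝ)).IsAddHaarMeasure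

private instance haarZ {m : ℕ} : (volume : Measure (Z m)).IsAddHaarMeasure :=
  inferInstanceAs ((volume : Measure ℝ).prod (volume : Measure (E m × ℝ))).IsAddHaarMeasure

private def SepL {m : ℕ} (η : E m) (s : ℝ) (Y : Finset (Z m)) : Prop :=
  ∀ z ∈ Y, ∀ z' ∈ Y, z ≠ z' → 1 ≤ ‖Lo η s z - Lo η s z'‖

/-- a maximal separated subset -/
private theorem net {m : ℕ} (η : E m) (s : ℝ) (X : Finset (Z m)) :
    ∃ Y ⊆ X, (∀ z ∈ Y, ∀ z' ∈ Y, z ≠ z' → 1 ≤ ‖Lo η s z - Lo η s z'‖) ∧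
      ∀ z ∈ X, ∃ y ∈ Y, ‖Lo η s z - Lo η s y‖ < 1 := by
  classical
  let F := X.powerset.filter (SepL η s)
  have hne : F.Nonempty := ⟨∅, by
    rw [Finset.mem_filter]
    exact ⟨Finset.empty_mem_powerset X, fun z hz => absurd hz (Finset.notMem_empty z)⟩⟩
  obtain ⟨Y, hY, hmax⟩ := F.exists_max_image Finset.card hne
  obtain ⟨hYX, hYs⟩ := Finset.mem_filter.1 hY
  rw [Finset.mem_powerset] at hYX
  refine ⟨Y, hYX, hYs, fun z hz => ?_⟩
  by_contra h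
  push Not at h
  have hzY : z ∉ Y := by
    intro hzY
    have h1 := h z hzY
    rw [sub_self, norm_zero] at h1
    linarith
  have h2 : insert z Y ∈ F := by
    rw [Finset.mem_filter, Finset.mem_powerset]
    refine ⟨Finset.insert_subset hz hYX, ?_⟩
    intro a ha b hb hab
    rcases Finset.mem_insert.1 ha with ha1 | ha1
    · rcases Finset.mem_insert.1 hb with hb1 | hb1
      · exact absurd (ha1.trans hb1.symm) hab
      · rw [ha1]
        exact h b hb1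
    · rcases Finset.mem_insert.1 hb with hb1 | hb1
      · rw [norm_sub_rev, hb1]
        exact h a ha1
      · exact hYs a ha1 b hb1 hab
  have h3 := hmax _ h2
  rw [Finset.card_insert_of_notMem hzY] at h3
  omega

/-- counting separated points in a plank -/
private theorem count (hLOA : T_LOA) (hLOB : T_LOB) (hLOI : T_LOI) (m : ℕ) (D : ℝ) (hD : 0 ≤ D) :
    ∃ C : ℝ, 0 < C ∧ ∀ (η : E m) (s : ℝ) (z' : Z m) (X : Finset (Z m)), ‖η‖ ≤ D → 0 < s →
      s ≤ 1 → Sep X → (∀ z ∈ X, ‖Lo η s z - Lo η s z'‖ ≤ 1) →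
      (X.card : ℝ) ≤ C * (s⁻¹) ^ (m + 2) := by
  set B : ℝ := 1 + (1 + D) ^ 2 with hB
  set c0 : ℝ≥0∞ := volume (ball (0 : Z m) (1 / 2)) with hc0
  set V : ℝ≥0∞ := volume (closedBall (0 : Z m) B) with hV
  have hc0' : c0 ≠ 0 := (measure_ball_pos volume (0 : Z m) (by norm_num)).ne'
  have hc0t : c0 ≠ ⊤ := measure_ball_lt_top.ne
  have hVt : V ≠ ⊤ := measure_closedBall_lt_top.ne
  refine ⟨(V / c0).toReal + 1, by positivity, ?_⟩
  intro η s z' X hη hs hs1 hX hnear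
  have h1 : (X.card : ℝ≥0∞) * c0 ≤ ENNReal.ofReal ((s⁻¹) ^ (m + 2)) * V := by
    have hdisj : (X : Set (Z m)).PairwiseDisjoint (fun z => ball z (1 / 2)) := by
      intro a ha b hb hab
      refine ball_disjoint_ball ?_
      rw [dist_eq_norm]
      have := hX a (Finset.mem_coe.1 ha) b (Finset.mem_coe.1 hb) hab
      linarith
    have e1 : (X.card : ℝ≥0∞) * c0 = volume (⋃ z ∈ X, ball z (1 / 2 : ℝ)) := by
      rw [measure_biUnion_finset hdisj (fun z _ => measurableSet_ball)]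
      rw [Finset.sum_congr rfl (fun z _ => Measure.addHaar_ball_center volume z (1 / 2))]
      rw [Finset.sum_const, nsmul_eq_mul]
    have e2 : (⋃ z ∈ X, ball z (1 / 2 : ℝ)) ⊆
        {u : Z m | Lo η s (u - z') ∈ closedBall (0 : Z m) B} := by
      intro u hu
      simp only [mem_iUnion, mem_ball, exists_prop] at hu
      obtain ⟨z, hz, huz⟩ := hu
      rw [Set.mem_ofPred_eq, mem_closedBall, dist_zero_right]
      have e3 : Lo η s (u - z') = Lo η s (u - z) + (Lo η s z - Lo η s z') := by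
        rw [((hLOA m).1 η s u z').2.1, ((hLOA m).1 η s u z).2.1]
        abel
      rw [e3]
      have e4 : ‖Lo η s (u - z)‖ ≤ (1 + D) ^ 2 * ‖u - z‖ :=
        (((hLOB m D hD).1) η s (u - z) hη hs.le hs1).1
      have e5 : ‖u - z‖ < 1 / 2 := by rwa [← dist_eq_norm]
      have e6 : (1 + D) ^ 2 * ‖u - z‖ ≤ (1 + D) ^ 2 * 1 :=
        mul_le_mul_of_nonneg_left (by linarith) (by positivity)
      calc _ ≤ ‖Lo η s (u - z)‖ + ‖Lo η s z - Lo η s z'‖ := norm_add_le _ _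
        _ ≤ (1 + D) ^ 2 * 1 + 1 := add_le_add (e4.trans e6) (hnear z hz)
        _ = B := by rw [hB]; ring
    have hmB : MeasurableSet (closedBall (0 : Z m) B) := measurableSet_closedBall
    have hcont : Continuous fun u : Z m => Lo η s (u - z') :=
      ((hLOI m η s hs).2.2.2.2.1.continuous).comp (continuous_id.sub continuous_const)
    have e7 : volume {u : Z m | Lo η s (u - z') ∈ closedBall (0 : Z m) B} =
        ENNReal.ofReal ((s⁻¹) ^ (m + 2)) * V := by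
      have hm1 : MeasurableSet {u : Z m | Lo η s (u - z') ∈ closedBall (0 : Z m) B} :=
        hcont.measurable hmB
      rw [← lintegral_indicator_one hm1]
      have e8 : ∀ u : Z m, ({u : Z m | Lo η s (u - z') ∈ closedBall (0 : Z m) B}).indicator
          (1 : Z m → ℝ≥0∞) u = (closedBall (0 : Z m) B).indicator (1 : Z m → ℝ≥0∞)
          (Lo η s (u - z')) := by
        intro u
        by_cases h : Lo η s (u - z') ∈ closedBall (0 : Z m) B
        · rw [indicator_of_mem h, indicator_of_mem (by exact h)]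
          rfl
        · rw [indicator_of_notMem h, indicator_of_notMem (by exact h)]
      rw [lintegral_congr e8]
      rw [lintegral_sub_right_eq_self
        (fun u => (closedBall (0 : Z m) B).indicator (1 : Z m → ℝ≥0∞) (Lo η s u)) z']
      rw [(hLOI m η s hs).1 (fun u => (closedBall (0 : Z m) B).indicator (1 : Z m → ℝ≥0∞) u)]
      rw [lintegral_indicator_one hmB]
    rw [e1, ← e7]
    exact measure_mono e2
  have hsp : (0 : ℝ) ≤ (s⁻¹) ^ (m + 2) := by positivity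
  have h2 : (X.card : ℝ≥0∞) ≤ ENNReal.ofReal ((s⁻¹) ^ (m + 2)) * (V / c0) := by
    rw [← mul_div_assoc, ENNReal.le_div_iff_mul_le (Or.inl hc0') (Or.inl hc0t)]
    exact h1
  have hVc : V / c0 ≠ ⊤ := ENNReal.div_ne_top hVt hc0'
  have h3 := ENNReal.toReal_mono (ENNReal.mul_ne_top ENNReal.ofReal_ne_top hVc) h2
  rw [ENNReal.toReal_natCast, ENNReal.toReal_mul, ENNReal.toReal_ofReal hsp] at h3
  calc (X.card : ℝ) ≤ (s⁻¹) ^ (m + 2) * (V / c0).toReal := h3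
    _ ≤ ((V / c0).toReal + 1) * (s⁻¹) ^ (m + 2) := by
      rw [mul_comm]
      exact mul_le_mul_of_nonneg_right (by linarith) hsp

/-- energies of the caps -/
private theorem energy (hPUS : T_PUS) {m : ℕ} {β : E m → ℂ} (hβ : IsPU β) {s : ℝ} (hs : 0 < s)
    {G : Z m → ℂ} (hG : TC G) :
    ∑ k ∈ Ks m s, ∫ ζ, ‖cp β (ctr s k) s ζ * G ζ‖ ^ 2 ≤ ∫ ζ, ‖G ζ‖ ^ 2 := by
  have hGc : Continuous G := hG.1.continuous
  have hG2 : Continuous (fun ζ => ‖G ζ‖ ^ 2) := hGc.norm.pow 2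
  have hG3 : HasCompactSupport (fun ζ => ‖G ζ‖ ^ 2) :=
    hG.2.comp_left (g := fun w : ℂ => ‖w‖ ^ 2) (by simp)
  have hint : Integrable (fun ζ => ‖G ζ‖ ^ 2) := hG2.integrable_of_hasCompactSupport hG3
  have hmeas : ∀ k : Fin m → ℤ, Measurable (fun ζ : Z m => cp β (ctr s k) s ζ) := by
    intro k
    unfold cp
    refine hβ.1.continuous.measurable.comp ?_
    have h1 : Measurable (fun ζ : Z m => ζ.1⁻¹ • ζ.2.1) :=
      (measurable_fst.inv).smul (measurable_fst.comp measurable_snd)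
    exact (h1.sub_const (ctr s k)).const_smul s⁻¹
  have hβ1 : ∀ x, ‖β x‖ ≤ 1 ∧ 0 ≤ (β x).re ∧ ‖β x‖ ^ 2 ≤ (β x).re := by
    intro x
    obtain ⟨r, h0, h1, h2⟩ := hβ.2.2.1 x
    rw [h2, Complex.norm_real, Real.norm_eq_abs, abs_of_nonneg h0, Complex.ofReal_re]
    exact ⟨h1, h0, by nlinarith⟩
  have hcp : ∀ (k : Fin m → ℤ) (ζ : Z m), ‖cp β (ctr s k) s ζ * G ζ‖ ^ 2 ≤
      (cp β (ctr s k) s ζ).re * ‖G ζ‖ ^ 2 := by
    intro k ζ
    rw [norm_mul, mul_pow]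
    exact mul_le_mul_of_nonneg_right (hβ1 _).2.2 (by positivity)
  have hI : ∀ k : Fin m → ℤ, Integrable (fun ζ => ‖cp β (ctr s k) s ζ * G ζ‖ ^ 2) := by
    intro k
    refine hint.mono' (((hmeas k).mul hGc.measurable).norm.pow_const 2).aestronglyMeasurable ?_
    refine Filter.Eventually.of_forall fun ζ => ?_
    rw [Real.norm_eq_abs, abs_of_nonneg (by positivity), norm_mul, mul_pow]
    have h1 : ‖cp β (ctr s k) s ζ‖ ^ 2 ≤ 1 := by
      have h2 : ‖cp β (ctr s k) s ζ‖ ≤ 1 := (hβ1 _).1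
      exact pow_le_one₀ (norm_nonneg _) h2
    exact mul_le_of_le_one_left (by positivity) h1
  rw [← integral_finsetSum _ (fun k _ => hI k)]
  refine integral_mono (integrable_finsetSum _ (fun k _ => hI k)) hint fun ζ => ?_
  have h1 := ((hPUS m).1 β s hβ hs).1 (ζ.1⁻¹ • ζ.2.1)
  have h2 : HasSum (fun k : Fin m → ℤ => (cp β (ctr s k) s ζ).re) 1 := by
    have h3 := Complex.hasSum_re h1
    exact h3
  have h4 : ∑ k ∈ Ks m s, (cp β (ctr s k) s ζ).re ≤ 1 :=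
    sum_le_hasSum _ (fun k _ => (hβ1 _).2.1) h2
  calc ∑ k ∈ Ks m s, ‖cp β (ctr s k) s ζ * G ζ‖ ^ 2
      ≤ ∑ k ∈ Ks m s, (cp β (ctr s k) s ζ).re * ‖G ζ‖ ^ 2 :=
        Finset.sum_le_sum fun k _ => hcp k ζ
    _ = (∑ k ∈ Ks m s, (cp β (ctr s k) s ζ).re) * ‖G ζ‖ ^ 2 := by rw [Finset.sum_mul]
    _ ≤ 1 * ‖G ζ‖ ^ 2 := mul_le_mul_of_nonneg_right h4 (by positivity)
    _ = ‖G ζ‖ ^ 2 := one_mul _

private theorem cp_mul {m : ℕ} (β : E m → ℂ) (a : ℂ) (η : E m) (s : ℝ) (ζ : Z m) :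
    cp (fun x => a * β x) η s ζ = a * cp β η s ζ := rfl

private theorem TP_mul {m : ℕ} (β : E m → ℂ) (a : ℂ) (η : E m) (s : ℝ) (G : Z m → ℂ) (z : Z m) :
    TP (fun x => a * β x) η s G z = a * TP β η s G z := by
  unfold TP TF
  rw [← integral_const_mul]
  refine integral_congr_ae (Filter.Eventually.of_forall fun ζ => ?_)
  simp only
  rw [cp_mul]
  ring

/-- the estimate for one cap -/
private theorem perk (hLOA : T_LOA) (hLOB : T_LOB) (hLOI : T_LOI) (hRSC : T_RSC) (m L : ℕ)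
    (x : ℝ) (β : E m → ℂ) (D CL : ℝ) (hD : 0 ≤ D) (hCL : 1 ≤ CL)
    (hφ : (fun x => ((CL⁻¹ : ℝ) : ℂ) * β x) ∈ Bp m L) :
    ∃ N1 CR : ℝ, 0 < N1 ∧ 0 < CR ∧ ∀ (s κ R A h g : ℝ) (G : Z m → ℂ) (η : E m)
      (X : Finset (Z m)), 0 < s → s ≤ 1 → 0 ≤ κ → κ ≤ 1 / 2 → 1 ≤ R * s ^ 2 → 0 < A → 0 < h →
      Bdx m L x κ (R * s ^ 2) g → Cls L κ R A G → Sep X → ‖η‖ ≤ D →
      (∀ z ∈ X, h ≤ ‖TP β η s G z‖) →
      (X.card : ℝ) * (h / CL) ^ (2 + x) ≤ N1 * (g * (CR * A) ^ x *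
        (R * s ^ 2) ^ (m * x / 2 - 1) * ((CL⁻¹) ^ 2 * ∫ ζ, ‖cp β η s ζ * G ζ‖ ^ 2)) := by
  classical
  obtain ⟨N1, hN1, hcount⟩ := count hLOA hLOB hLOI m D hD
  obtain ⟨CR, hCR, hR⟩ := hRSC m L
  refine ⟨N1, CR, hN1, by linarith, ?_⟩
  intro s κ R A h g G η X hs hs1 hκ hκ2 hRs hA hh hBd hG hX hη hXk
  have hCL0 : 0 < CL := by linarith
  obtain ⟨G', hG', hTF, hInt⟩ := hR κ R A G _ η s hφ hκ hκ2 hA hs hs1 hRs hG
  obtain ⟨Y, hYX, hYs, hYn⟩ := net η s X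
  -- counting
  have hc : (X.card : ℝ) ≤ N1 * (s⁻¹) ^ (m + 2) * Y.card := by
    have h1 : X ⊆ Y.biUnion (fun y => X.filter (fun z => ‖Lo η s z - Lo η s y‖ ≤ 1)) := by
      intro z hz
      obtain ⟨y, hy, hzy⟩ := hYn z hz
      exact Finset.mem_biUnion.2 ⟨y, hy, Finset.mem_filter.2 ⟨hz, hzy.le⟩⟩
    have h2 : X.card ≤ ∑ y ∈ Y, (X.filter (fun z => ‖Lo η s z - Lo η s y‖ ≤ 1)).card :=
      (Finset.card_le_card h1).trans Finset.card_biUnion_le
    have h3 : (X.card : ℝ) ≤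
        ∑ y ∈ Y, ((X.filter (fun z => ‖Lo η s z - Lo η s y‖ ≤ 1)).card : ℝ) := by
      exact_mod_cast h2
    refine h3.trans ?_
    have h4 : ∀ y ∈ Y, ((X.filter (fun z => ‖Lo η s z - Lo η s y‖ ≤ 1)).card : ℝ) ≤
        N1 * (s⁻¹) ^ (m + 2) := by
      intro y _
      refine hcount η s y _ hη hs hs1 ?_ ?_
      · intro a ha b hb hab
        exact hX a (Finset.mem_of_mem_filter a ha) b (Finset.mem_of_mem_filter b hb) hab
      · intro z hz
        exact (Finset.mem_filter.1 hz).2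
    refine (Finset.sum_le_sum h4).trans ?_
    rw [Finset.sum_const, nsmul_eq_mul, mul_comm]
  -- the estimate at the smaller scale
  have hinj : ∀ a ∈ Y, ∀ b ∈ Y, Lo η s a = Lo η s b → a = b := by
    intro a ha b hb hab
    by_contra hne
    have h1 := hYs a ha b hb hne
    rw [hab, sub_self, norm_zero] at h1
    linarith
  have hBd' := hBd (CR * A) (h / CL) G' (Y.image (Lo η s)) (by positivity) (by positivity) hG'
    (by
      intro a ha b hb hab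
      obtain ⟨a', ha', rfl⟩ := Finset.mem_image.1 ha
      obtain ⟨b', hb', rfl⟩ := Finset.mem_image.1 hb
      exact hYs a' ha' b' hb' (fun h => hab (by rw [h])))
    (by
      intro a ha
      obtain ⟨z, hz, rfl⟩ := Finset.mem_image.1 ha
      rw [hTF z, TP_mul, norm_mul, Complex.norm_real, Real.norm_eq_abs,
        abs_of_nonneg (by positivity), div_eq_inv_mul]
      exact mul_le_mul_of_nonneg_left (hXk z (hYX hz)) (by positivity))
  rw [Finset.card_image_of_injOn (fun a ha b hb hab => hinj a ha b hb hab), hInt] at hBd'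
  have hI2 : ∫ ζ, ‖cp (fun x => ((CL⁻¹ : ℝ) : ℂ) * β x) η s ζ * G ζ‖ ^ 2 =
      (CL⁻¹) ^ 2 * ∫ ζ, ‖cp β η s ζ * G ζ‖ ^ 2 := by
    rw [← integral_const_mul]
    refine integral_congr_ae (Filter.Eventually.of_forall fun ζ => ?_)
    simp only
    rw [cp_mul, mul_assoc, norm_mul, Complex.norm_real, Real.norm_eq_abs,
      abs_of_nonneg (by positivity), mul_pow]
  rw [hI2] at hBd'
  have hp : 0 ≤ (h / CL) ^ (2 + x) := by positivity
  have hss : (s⁻¹) ^ (m + 2) * s ^ (m + 2) = 1 := by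
    rw [← mul_pow, inv_mul_cancel₀ hs.ne', one_pow]
  calc (X.card : ℝ) * (h / CL) ^ (2 + x)
      ≤ N1 * (s⁻¹) ^ (m + 2) * Y.card * (h / CL) ^ (2 + x) :=
        mul_le_mul_of_nonneg_right hc hp
    _ = N1 * (s⁻¹) ^ (m + 2) * (Y.card * (h / CL) ^ (2 + x)) := by ring
    _ ≤ N1 * (s⁻¹) ^ (m + 2) * (g * (CR * A) ^ x * (R * s ^ 2) ^ (m * x / 2 - 1) *
          (s ^ (m + 2) * ((CL⁻¹) ^ 2 * ∫ ζ, ‖cp β η s ζ * G ζ‖ ^ 2))) :=
        mul_le_mul_of_nonneg_left hBd' (by positivity)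
    _ = N1 * (g * (CR * A) ^ x * (R * s ^ 2) ^ (m * x / 2 - 1) *
          (((s⁻¹) ^ (m + 2) * s ^ (m + 2)) *
            ((CL⁻¹) ^ 2 * ∫ ζ, ‖cp β η s ζ * G ζ‖ ^ 2))) := by ring
    _ = _ := by rw [hss, one_mul]

theorem pf_NARx (hRSC : T_RSC) (hPUB : T_PUB) (hPUS : T_PUS) (hLOA : T_LOA) (hLOB : T_LOB)
    (hLOI : T_LOI) : T_NARx := by
  classical
  intro m L x β c hm _hx0 _hx4 _hmx hβ hc
  obtain ⟨CL, hCL, hφ⟩ := hPUB m L β hβ
  obtain ⟨-, -, D, hD, -, -, hctr⟩ := hPUS m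
  obtain ⟨N1, CR, hN1, hCR, hper⟩ := perk hLOA hLOB hLOI hRSC m L x β D CL hD.le hCL hφ
  have hCL0 : 0 < CL := by linarith
  refine ⟨((c / CL) ^ (2 + x))⁻¹ * N1 * CR ^ x * (CL⁻¹) ^ 2, by positivity, ?_⟩
  intro K κ R A H g G X hK hκ hκ2 hKR hA hH hg hBd hG hX hXk
  have hK0 : 0 < K := by linarith
  have hR0 : 0 < R := lt_of_lt_of_le (by positivity) hKR
  have hs : 0 < K⁻¹ := by positivity
  have hs1 : K⁻¹ ≤ 1 := inv_le_one_of_one_le₀ hK
  have hRK : R * K⁻¹ ^ 2 = R / K ^ 2 := by rw [inv_pow, div_eq_mul_inv]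
  have hRs : 1 ≤ R * K⁻¹ ^ 2 := by
    rw [hRK, le_div_iff₀ (by positivity), one_mul]
    exact hKR
  set I0 : ℝ := ∫ ζ, ‖G ζ‖ ^ 2 with hI0
  -- one cap
  have hk : ∀ k ∈ Ks m K⁻¹, ((X.filter (fun z => c * H ≤ ‖TP β (ctr K⁻¹ k) K⁻¹ G z‖)).card : ℝ) *
      (c * H / CL) ^ (2 + x) ≤ N1 * (g * (CR * A) ^ x * (R / K ^ 2) ^ (m * x / 2 - 1) *
        ((CL⁻¹) ^ 2 * ∫ ζ, ‖cp β (ctr K⁻¹ k) K⁻¹ ζ * G ζ‖ ^ 2)) := by
    intro k hk
    rw [← hRK]
    refine hper K⁻¹ κ R A (c * H) g G (ctr K⁻¹ k) _ hs hs1 hκ hκ2 hRs hA (by positivity)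
      (by rw [hRK]; exact hBd) hG ?_ (hctr K⁻¹ k hs hs1 hk) ?_
    · intro a ha b hb hab
      exact hX a (Finset.mem_of_mem_filter a ha) b (Finset.mem_of_mem_filter b hb) hab
    · intro z hz
      exact (Finset.mem_filter.1 hz).2
  have hcard : (X.card : ℝ) ≤ ∑ k ∈ Ks m K⁻¹,
      ((X.filter (fun z => c * H ≤ ‖TP β (ctr K⁻¹ k) K⁻¹ G z‖)).card : ℝ) := by
    have h1 : X ⊆ (Ks m K⁻¹).biUnion
        (fun k => X.filter (fun z => c * H ≤ ‖TP β (ctr K⁻¹ k) K⁻¹ G z‖)) := by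
      intro z hz
      obtain ⟨k, hk, hzk⟩ := hXk z hz
      exact Finset.mem_biUnion.2 ⟨k, hk, Finset.mem_filter.2 ⟨hz, hzk⟩⟩
    have h2 := (Finset.card_le_card h1).trans Finset.card_biUnion_le
    exact_mod_cast h2
  have hp : 0 ≤ (c * H / CL) ^ (2 + x) := by positivity
  have hRK3 : (R / K ^ 2) ^ (m * x / 2 - 1) = R ^ (m * x / 2 - 1) * K ^ (2 - m * x) := by
    rw [Real.div_rpow hR0.le (by positivity), ← Real.rpow_natCast K 2, ← Real.rpow_mul hK0.le,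
      div_eq_mul_inv, ← Real.rpow_neg hK0.le]
    congr 2
    push_cast
    ring
  have hmain : (X.card : ℝ) * (c * H / CL) ^ (2 + x) ≤
      N1 * (g * (CR * A) ^ x * (R / K ^ 2) ^ (m * x / 2 - 1) * ((CL⁻¹) ^ 2 * I0)) := by
    calc (X.card : ℝ) * (c * H / CL) ^ (2 + x)
        ≤ (∑ k ∈ Ks m K⁻¹,
          ((X.filter (fun z => c * H ≤ ‖TP β (ctr K⁻¹ k) K⁻¹ G z‖)).card : ℝ)) *
            (c * H / CL) ^ (2 + x) := mul_le_mul_of_nonneg_right hcard hp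
      _ = ∑ k ∈ Ks m K⁻¹,
          ((X.filter (fun z => c * H ≤ ‖TP β (ctr K⁻¹ k) K⁻¹ G z‖)).card : ℝ) *
            (c * H / CL) ^ (2 + x) := by rw [Finset.sum_mul]
      _ ≤ ∑ k ∈ Ks m K⁻¹, N1 * (g * (CR * A) ^ x * (R / K ^ 2) ^ (m * x / 2 - 1) *
          ((CL⁻¹) ^ 2 * ∫ ζ, ‖cp β (ctr K⁻¹ k) K⁻¹ ζ * G ζ‖ ^ 2)) := Finset.sum_le_sum hk
      _ = N1 * (g * (CR * A) ^ x * (R / K ^ 2) ^ (m * x / 2 - 1) * ((CL⁻¹) ^ 2 *
          ∑ k ∈ Ks m K⁻¹, ∫ ζ, ‖cp β (ctr K⁻¹ k) K⁻¹ ζ * G ζ‖ ^ 2)) := by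
            simp only [Finset.mul_sum]
      _ ≤ _ := by
            have h5 := energy hPUS hβ hs hG.1
            have h6 : 0 ≤ g * (CR * A) ^ x * (R / K ^ 2) ^ (m * x / 2 - 1) := by positivity
            exact mul_le_mul_of_nonneg_left (mul_le_mul_of_nonneg_left
              (mul_le_mul_of_nonneg_left h5 (by positivity)) h6) hN1.le
  have hsplit : (c * H / CL) ^ (2 + x) = (c / CL) ^ (2 + x) * H ^ (2 + x) := by
    rw [← Real.mul_rpow (by positivity) hH.le]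
    congr 1
    ring
  have hCA : (CR * A) ^ x = CR ^ x * A ^ x := Real.mul_rpow hCR.le hA.le
  rw [hsplit, hRK3, hCA] at hmain
  have hq : 0 < (c / CL) ^ (2 + x) := by positivity
  calc (X.card : ℝ) * H ^ (2 + x)
      = ((c / CL) ^ (2 + x))⁻¹ *
        ((X.card : ℝ) * ((c / CL) ^ (2 + x) * H ^ (2 + x))) := by
        field_simp
    _ ≤ ((c / CL) ^ (2 + x))⁻¹ * (N1 * (g * (CR ^ x * A ^ x) *
        (R ^ (m * x / 2 - 1) * K ^ (2 - m * x)) * ((CL⁻¹) ^ 2 * I0))) :=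
        mul_le_mul_of_nonneg_left hmain (by positivity)
    _ = _ := by ring

end Pool.Agent.H22.G4.NAR
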