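import Pool.Agent.H83.G.Targets5

/-!
Theorem G (MP_ee74d2_an), group G4: `j` transversal functions (`j = 4` is used for `m = 3`).
Transversality is quantitative linear independence of the null covectors of the caps.
-/

set_option autoImplicit false

namespace Pool.Agent.H22.G4

open MeasureTheory Set
open Pool.Agent.H83.G
open scoped ENNReal NNReal RealInnerProductSpace

/-- the null covector of the direction `η`: `(Lo η 1 z).1` is the pairing of `z` with it -/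
noncomputable def nv {m : ℕ} (η : E m) : Z m := (1, η, ‖η‖ ^ 2)

/-- quantitative linear independence of the null covectors of `j` directions -/
def Ind {m j : ℕ} (c : ℝ) (η : Fin j → E m) : Prop :=
  ∀ a : Fin j → ℝ, c * ∑ i, |a i| ≤ ‖∑ i, a i • nv (η i)‖

/-- IN1: stability -/
def T_IN1 : Prop := ∀ (m j : ℕ) (c B r : ℝ) (η η' : Fin j → E m), 0 ≤ B → 0 ≤ r →
  (∀ i, ‖η i‖ ≤ B) → (∀ i, ‖η' i‖ ≤ B) → (∀ i, ‖η i - η' i‖ ≤ r) → Ind c η →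
  Ind (c - (2 * B + 1) * r) η'

/-- IN2: independent directions are separated -/
def T_IN2 : Prop := ∀ (m j : ℕ) (c B : ℝ) (η : Fin j → E m), 0 ≤ B → (∀ i, ‖η i‖ ≤ B) →
  Ind c η → ∀ i i', i ≠ i' → c / (B + 1) ≤ ‖η i - η i'‖

open Classical in
/-- LWJ: `j` transversal families of planks in a cube -/
def T_LWJ : Prop := ∀ (m j : ℕ) (c : ℝ), j ≤ m + 2 → 0 < c → ∃ C : ℝ, 1 ≤ C ∧
  ∀ (R δ : ℝ) (p : Z m) (X : Finset (Z m)) (S : Fin j → Finset (Pk m)) (M₁ : Fin j → ℝ),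
  1 ≤ R → 0 ≤ δ → Sep X → (∀ z ∈ X, ‖z - p‖ ≤ ((m : ℝ) + 1) * R ^ (1 / 2 : ℝ)) →
  (∀ i, ∀ W ∈ S i, ‖ctr (sR R) W.1‖ ≤ 3) →
  (∀ W : Fin j → Pk m, (∀ i, W i ∈ S i) → Ind c fun i => ctr (sR R) (W i).1) →
  (∀ i, 0 ≤ M₁ i) →
  (∀ z ∈ X, ∀ i, M₁ i ≤ (((S i).filter fun W => near R δ W z).card : ℝ)) →
  (X.card : ℝ) * ∏ i, M₁ i ≤ C * R ^ (((m : ℝ) + 2 - j) / 2 + 2 * j * δ) *
    ∏ i, ((S i).card : ℝ)

open scoped Classical in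
/-- TEJ: `j` families of planks in the cubes -/
def T_TEJ : Prop := ∀ (m j : ℕ) (c : ℝ), j ≤ m + 2 → 0 < c → ∃ C : ℝ, 1 ≤ C ∧
  ∀ (R r δ : ℝ) (S : Fin j → Finset (Pk m)) (b M M₁ : Fin j → ℝ) (QQ : Finset (Zi m))
  (l k : Fin j → ℕ) (X : Finset (Z m)), 1 ≤ R → 0 ≤ δ → Sep X →
  (∀ i, ∀ W ∈ S i, ‖ctr (sR R) W.1‖ ≤ 3) →
  (∀ W : Fin j → Pk m, (∀ i, W i ∈ S i) → Ind c fun i => ctr (sR R) (W i).1) →
  (∀ i, 0 < b i ∧ 0 < M i ∧ 0 < M₁ i) →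
  (∀ i, ∀ W ∈ S i, (((S i).filter (fun W' => tb R W' = tb R W)).card : ℝ) ≤ 2 * b i) →
  (∀ z ∈ X, ∀ i, ((((S i).image (tb R)).filter (fun T => Inc R δ T (cb (Real.sqrt R) z) ∧
    Sh QQ R r δ (l i) (k i) T (bl R r (cb (Real.sqrt R) z)))).card : ℝ) ≤ 2 * M i) →
  (∀ z ∈ X, ∀ i, M₁ i ≤ (((SB QQ R r δ (l i) (k i) (S i)
    (bl R r (cb (Real.sqrt R) z))).filter (fun W => near R δ W z)).card : ℝ)) →
  (X.card : ℝ) * ∏ i, M₁ i ≤ C * R ^ (2 * j * δ) *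
    (X.image (cb (Real.sqrt R))).card * (∏ i, (M i * b i)) * R ^ (((m : ℝ) + 2 - j) / 2)

/-- the final linear programme with `j` functions -/
def T_ALGJ (j m : ℕ) (x : ℝ) : Prop := ∀ (N H q E A L R : ℝ) (M1 M t b a : Fin j → ℝ),
  0 < N → 0 < H → 0 < q → 0 < E → 0 < A → 1 ≤ L → 1 ≤ R →
  (∀ i, 0 < M1 i) → (∀ i, 0 < M i) → (∀ i, 0 < t i) → (∀ i, 1 ≤ b i) → (∀ i, 0 < a i) →
  (∀ i, t i * b i * a i ^ 2 * R ^ ((m : ℝ) / 2) ≤ L * E) →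
  E ≤ L * A ^ 2 * R ^ ((m : ℝ) + 1) →
  (∀ i, q * M i ≤ L * t i * R ^ (1 / 2 : ℝ)) →
  (∀ i i', i ≠ i' → q * M i * M i' ^ 2 ≤ L * t i * t i') →
  N * (∏ i, M1 i) ≤ L * q * (∏ i, (M i * b i)) * R ^ (((m : ℝ) + 2 - j) / 2) →
  (∀ i, N * H ^ 2 ≤ L * q * M i * b i * a i ^ 2 * R ^ (((m : ℝ) + 1) / 2)) →
  (∀ i, N * H ^ (2 * ((m : ℝ) + 2) / m) ≤
    L * M1 i ^ (2 / (m : ℝ)) * a i ^ (2 * ((m : ℝ) + 2) / m) * t i * b i *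
      R ^ (((m : ℝ) + 2) / 2)) →
  (∀ i, M1 i ≤ L * M i) → (∀ i, a i ≤ L * A) →
  N * H ^ (2 + x) ≤ L ^ 4 * A ^ x * R ^ ((m : ℝ) * x / 2) * E

/-- ALG4: four functions, `m = 3`, `x = 8/9` (`p = 26/9`) -/
def T_ALG4 : Prop := T_ALGJ 4 3 (8 / 9)

end Pool.Agent.H22.G4
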