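import Pool.Agent.H22.G4.TargetsJ

/-!
Theorem G (MP_ee74d2_an), group G4: the final linear programme with four functions for
`m = 3`, `x ≥ 8/9` and for `m = 2`, `x ≥ 4/3` (the latter with the four-linear estimate).
-/

set_option autoImplicit false

namespace Pool.Agent.H22.G4

open Pool.Agent.H83.G

/-- the final linear programme with four functions; for `m = 2` with the four-linear restriction
estimate in the cubes -/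
def T_ALGK (m : ℕ) (x : ℝ) : Prop := ∀ (N H q E A L R : ℝ) (M1 M t b a : Fin 4 → ℝ),
  0 < N → 0 < H → 0 < q → 0 < E → 0 < A → 1 ≤ L → 1 ≤ R →
  (∀ i, 0 < M1 i) → (∀ i, 0 < M i) → (∀ i, 0 < t i) → (∀ i, 1 ≤ b i) → (∀ i, 0 < a i) →
  (∀ i, t i * b i * a i ^ 2 * R ^ ((m : ℝ) / 2) ≤ L * E) →
  E ≤ L * A ^ 2 * R ^ ((m : ℝ) + 1) →
  (∀ i, q * M i ≤ L * t i * R ^ (1 / 2 : ℝ)) →
  (∀ i i', i ≠ i' → q * M i * M i' ^ 2 ≤ L * t i * t i') →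
  N * (∏ i, M1 i) ≤ L * q * (∏ i, (M i * b i)) * R ^ (((m : ℝ) - 2) / 2) →
  (∀ i, N * H ^ 2 ≤ L * q * M i * b i * a i ^ 2 * R ^ (((m : ℝ) + 1) / 2)) →
  (∀ i, N * H ^ (2 * ((m : ℝ) + 2) / m) ≤
    L * M1 i ^ (2 / (m : ℝ)) * a i ^ (2 * ((m : ℝ) + 2) / m) * t i * b i *
      R ^ (((m : ℝ) + 2) / 2)) →
  (m = 2 → N * H ^ (8 / 3 : ℝ) ≤
    L * q * ∏ i, (M i * b i * a i ^ 2 * R ^ ((m : ℝ) / 2)) ^ (1 / 3 : ℝ)) →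
  (∀ i, M1 i ≤ L * M i) → (∀ i, a i ≤ L * A) → H ≤ L * A * R ^ ((m : ℝ) / 2) →
  N * H ^ (2 + x) ≤ L ^ 5 * A ^ x * R ^ ((m : ℝ) * x / 2) * E

/-- ALGK -/
def T_ALGKs : Prop := (∀ x : ℝ, 8 / 9 ≤ x → x ≤ 17 / 9 → T_ALGK 3 x) ∧
  ∀ x : ℝ, 4 / 3 ≤ x → x ≤ 7 / 3 → T_ALGK 2 x

end Pool.Agent.H22.G4
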